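import Pool.Agent.R693.R.Key

/-!
Prime ideals with the same restriction are equal.
-/

set_option autoImplicit false
set_option linter.unusedSectionVars false

namespace Pool.Agent.R693.W

section min
variable {F : Type*} [Field F] [CharZero F] {ι : Type} [AddCommMonoid ι] [Lab ι]
variable {A : Type*} [Ring A] [Algebra F A] {e : ι → A}

/-- The minimal number of labels. -/
lemma exists_min (he : IsW F e) (hgen : ∀ x : A, ∃ k, x ∈ Fl F e k) {P : TwoSidedIdeal A}
    (h0 : P ≠ ⊥) (h1 : P ≠ ⊤) : ∃ k N, Dl F ι (k + 1) ^ N ∈ aI e (k + 1) (subsp F P) ∧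
      ∀ M, ∃ n, eta0 F e k M n ∉ P := by
  classical
  have hex := exists_Van_ideal (F := F) he hgen h0
  have hspec := Nat.find_spec hex
  obtain ⟨N, hN⟩ := hspec
  obtain ⟨k, hk⟩ : ∃ k, Nat.find hex = k + 1 := by
    apply Nat.exists_eq_succ_of_ne_zero
    intro hz
    rw [hz] at hN
    apply h1
    rw [← TwoSidedIdeal.one_mem_iff]
    have h2 := hN 0
    have h3 : Dl F ι 0 = 1 := by
      unfold Dl offd
      simp
    rw [h3, one_pow, act_one] at h2
    exact mem_subsp.mp h2
  rw [hk] at hN
  refine ⟨k, N, hN, fun M => ?_⟩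
  by_contra hcon
  push Not at hcon
  have := Nat.find_min hex (m := k) (by omega)
  exact this ⟨M, fun n => mem_subsp.mpr (hcon n)⟩

lemma aI_pow_mono {I : Submodule F A} {d N M : ℕ} (h : N ≤ M) (hN : Dl F ι d ^ N ∈ aI e d I) :
    Dl F ι d ^ M ∈ aI e d I := by
  obtain ⟨t, rfl⟩ := Nat.exists_eq_add_of_le h
  rw [pow_add, mul_comm]
  exact Ideal.mul_mem_left _ _ hN

lemma om_split (d l : ℕ) : ∃ U : G ι → A, (∀ n n' : G ι, (∀ a, d ≤ a → n a = n' a) → U n = U n') ∧
    ∀ n, om e (d + l) n = U n * om e d n := by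
  induction l with
  | zero => exact ⟨fun _ => 1, fun _ _ _ => rfl, fun n => by rw [add_zero, one_mul]⟩
  | succ l ih =>
    obtain ⟨U, hU, hU'⟩ := ih
    refine ⟨fun n => e (n (d + l)) * U n, fun n n' hn => ?_, fun n => ?_⟩
    · beta_reduce
      rw [hn (d + l) (by omega), hU n n' hn]
    · have h1 : om e (d + (l + 1)) n = e (n (d + l)) * om e (d + l) n := rfl
      rw [h1, hU', mul_assoc]

lemma Dl_dvd_add (d l : ℕ) : ∃ q ∈ Algebra.adjoin F (X '' Set.univ : Set (K F ι)),
    Dl F ι (d + l) = q * Dl F ι d := by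
  refine ⟨∏ p ∈ offd (d + l) \ offd d, (X p.1 - X p.2), ?_, ?_⟩
  · apply Subalgebra.prod_mem
    intro p _
    exact Subalgebra.sub_mem _ (X_mem_adj (Set.mem_univ _)) (X_mem_adj (Set.mem_univ _))
  · unfold Dl
    rw [Finset.prod_sdiff]
    intro p hp
    unfold offd at hp ⊢
    simp only [Finset.mem_filter, Finset.mem_product, Finset.mem_range] at hp ⊢
    omega

end min

section inj
variable {F : Type*} [Field F] [CharZero F] {A : Type*} [Ring A] [Algebra F A] {e : ℤ → A}

variable (F) (e) in
/-- The positive subalgebra. -/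
noncomputable def Apos : Subalgebra F A := Algebra.adjoin F (Set.range fun n : ℕ => e n)

lemma e_mem_Apos {v : ℤ} (hv : 0 ≤ v) : e v ∈ Apos F e :=
  Algebra.subset_adjoin ⟨v.toNat, by beta_reduce; rw [Int.toNat_of_nonneg hv]⟩

lemma om_mem_Apos (d : ℕ) (n : G ℤ) (hn : ∀ i < d, 0 ≤ n i) : om e d n ∈ Apos F e := by
  induction d with
  | zero => exact (Apos F e).one_mem
  | succ d ih =>
    have h1 : om e (d + 1) n = e (n d) * om e d n := rfl
    rw [h1]
    exact (Apos F e).mul_mem (e_mem_Apos (hn d (by omega))) (ih fun i hi => hn i (by omega))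

/-- Functions with values in a subspace on a positive region. -/
def Pos (S : Submodule F A) (d : ℕ) : Submodule F (G ℤ → A) where
  carrier := {g | ∀ n : G ℤ, (∀ i < d, 0 ≤ n i) → g n ∈ S}
  add_mem' := fun ha hb n hn => S.add_mem (ha n hn) (hb n hn)
  zero_mem' := fun n _ => S.zero_mem
  smul_mem' := fun c g hg n hn => S.smul_mem c (hg n hn)

lemma mem_Pos {S : Submodule F A} {d : ℕ} {g : G ℤ → A} :
    g ∈ Pos S d ↔ ∀ n : G ℤ, (∀ i < d, 0 ≤ n i) → g n ∈ S := Iff.rfl

lemma Pos_act {S : Submodule F A} {d : ℕ} {f : K F ℤ}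
    (hf : f ∈ Algebra.adjoin F (X '' Set.univ : Set (K F ℤ))) {g : G ℤ → A} (hg : g ∈ Pos S d) :
    act A f g ∈ Pos S d := by
  apply adjoin_closed (Pos S d) _ hf _ hg
  rintro _ ⟨i, _, rfl⟩ g hg n hn
  rw [act_X]
  apply hg
  intro a ha
  have := hn a ha
  have hone : (Lab.one : ℤ) = 1 := rfl
  rw [Pi.add_apply, dl_apply]
  split_ifs <;> omega

lemma Dl_mem_univ (d : ℕ) : Dl F ℤ d ∈ Algebra.adjoin F (X '' Set.univ : Set (K F ℤ)) :=
  Dl_mem_adj fun _ _ => Set.mem_univ _

lemma eta0_Pos (d N : ℕ) : eta0 F e d N ∈ Pos (Subalgebra.toSubmodule (Apos F e)) d :=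
  Pos_act (Subalgebra.pow_mem _ (Dl_mem_univ d) N) fun n hn => om_mem_Apos d n hn

/-- The number of labels is determined by the restriction. -/
lemma inj_le (he : IsW F e) (hgen : ∀ x : A, ∃ k, x ∈ Fl F e k) {P P' : TwoSidedIdeal A}
    (hP : IsPrimeT P) {k N : ℕ} (hV : Dl F ℤ (k + 1) ^ N ∈ aI e (k + 1) (subsp F P))
    (hη : ∀ M, ∃ n, eta0 F e k M n ∉ P) {k' N' : ℕ}
    (hV' : Dl F ℤ (k' + 1) ^ N' ∈ aI e (k' + 1) (subsp F P'))
    (hPP : ∀ a ∈ Apos F e, a ∈ P' → a ∈ P) : k ≤ k' := by
  by_contra hlt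
  obtain ⟨l, rfl⟩ : ∃ l, k = k' + 1 + l := Nat.exists_eq_add_of_le (by omega)
  have h1 : (eta0 F e (k' + 1) N' : G ℤ → A) ∈ Pos (subsp F P) (k' + 1) := by
    intro n hn
    exact mem_subsp.mpr (hPP _ (eta0_Pos (k' + 1) N' n hn) (mem_subsp.mp (hV' n)))
  obtain ⟨U, hU, hU'⟩ := om_split (e := e) (k' + 1) l
  have h2 : act A (Dl F ℤ (k' + 1) ^ N') (om e (k' + 1 + l)) ∈ Pos (subsp F P) (k' + 1) := by
    intro n hn
    have h3 : act A (Dl F ℤ (k' + 1) ^ N') (om e (k' + 1 + l)) n =
        act A (Dl F ℤ (k' + 1) ^ N') (fun n' => U n * om e (k' + 1) n') n := by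
      apply act_congr_lab (Subalgebra.pow_mem _
        (Dl_mem_adj (S := {a | a < k' + 1}) fun i hi => hi) _)
      intro n' hn'
      rw [hU']
      congr 1
      apply hU
      intro a ha
      apply hn'
      simp only [Set.mem_ofPred_eq]
      omega
    rw [h3, act_left]
    exact mem_subsp.mpr (P.mul_mem_left _ _ (mem_subsp.mp (h1 n hn)))
  obtain ⟨q, hq, hq'⟩ := Dl_dvd_add (F := F) (ι := ℤ) (k' + 1) l
  have h4 : (eta0 F e (k' + 1 + l) (N + N') : G ℤ → A) ∈ Pos (subsp F P) (k' + 1) := by
    unfold eta0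
    have h5 : Dl F ℤ (k' + 1 + l) ^ (N + N') =
        (Dl F ℤ (k' + 1 + l) ^ N * q ^ N') * Dl F ℤ (k' + 1) ^ N' := by
      rw [pow_add, mul_assoc, ← mul_pow, ← hq']
    rw [h5, act_mul]
    exact Pos_act (Subalgebra.mul_mem _ (Subalgebra.pow_mem _ (Dl_mem_univ _) _)
      (Subalgebra.pow_mem _ hq _)) h2
  have h6 : (1 : A) ∈ P := by
    apply key_lemma he hgen hP (aI_pow_mono (Nat.le_add_right N N') hV) hη (c := 0)
    intro n hn
    rw [one_mul]
    exact mem_subsp.mp (h4 n fun i hi => hn i (by omega))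
  apply hP.1
  rwa [← TwoSidedIdeal.one_mem_iff]

/-- Functions with values in a subspace at infinity. -/
def Inf (S : Submodule F A) (k : ℕ) : Submodule F (G ℤ → A) where
  carrier := {g | ∃ c : ℤ, ∀ n : G ℤ, (∀ i < k, c ≤ n i) → g n ∈ S}
  add_mem' := by
    rintro g g' ⟨c, hc⟩ ⟨c', hc'⟩
    exact ⟨max c c', fun n hn => S.add_mem (hc n fun i hi => (le_max_left _ _).trans (hn i hi))
      (hc' n fun i hi => (le_max_right _ _).trans (hn i hi))⟩
  zero_mem' := ⟨0, fun n _ => S.zero_mem⟩
  smul_mem' := fun a g ⟨c, hc⟩ => ⟨c, fun n hn => S.smul_mem a (hc n hn)⟩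

lemma mem_Inf {S : Submodule F A} {k : ℕ} {g : G ℤ → A} :
    g ∈ Inf S k ↔ ∃ c : ℤ, ∀ n : G ℤ, (∀ i < k, c ≤ n i) → g n ∈ S := Iff.rfl

lemma Inf_act {S : Submodule F A} {k : ℕ} (f : K F ℤ) {g : G ℤ → A} (hg : g ∈ Inf S k) :
    act A f g ∈ Inf S k := by
  induction f using AddMonoidAlgebra.induction_linear with
  | zero => rw [map_zero]; exact Submodule.zero_mem _
  | add p q hp hq => rw [map_add, LinearMap.add_apply]; exact Submodule.add_mem _ hp hq
  | single κ r =>
    obtain ⟨c, hc⟩ := hg
    refine ⟨c + ∑ i ∈ Finset.range k, |κ i|, fun n hn => ?_⟩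
    rw [act_single]
    apply S.smul_mem
    apply hc
    intro i hi
    have h1 := hn i hi
    have h2 : |κ i| ≤ ∑ i ∈ Finset.range k, |κ i| :=
      Finset.single_le_sum (f := fun i => |κ i|) (fun j _ => abs_nonneg _)
        (Finset.mem_range.mpr hi)
    have h3 := neg_abs_le (κ i)
    rw [Pi.add_apply]
    linarith

/-- Reduction modulo an ideal. -/
lemma red (he : IsW F e) {J : TwoSidedIdeal A} {k N : ℕ}
    (hV : Dl F ℤ (k + 1) ^ N ∈ aI e (k + 1) (subsp F J)) (w : List ℤ) :
    (fun n => wd e w * eta0 F e k N n) ∈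
      Inf (Subalgebra.toSubmodule (Apos F e) ⊔ subsp F J) k := by
  set S := Subalgebra.toSubmodule (Apos F e) ⊔ subsp F J with hS
  induction w with
  | nil =>
    refine ⟨0, fun n hn => ?_⟩
    beta_reduce
    rw [wd_nil, one_mul]
    exact Submodule.mem_sup_left (eta0_Pos k N n hn)
  | cons v w ih =>
    set g : G ℤ → A := fun n => wd e w * eta0 F e k N n with hg
    set h : G ℤ → A := fun n => e (n k) * g n with hh
    let PP : ℤ → Submodule F (G ℤ → A) := fun m =>
      { carrier := {h | ∀ v, m ≤ v → (fun n => h (Function.update n k v)) ∈ Inf S k}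
        add_mem' := fun ha hb v hv => (Inf S k).add_mem (ha v hv) (hb v hv)
        zero_mem' := fun v _ => (Inf S k).zero_mem
        smul_mem' := fun c g hg v hv => (Inf S k).smul_mem c (hg v hv) }
    have hPP : ∀ m h, h ∈ PP m ↔
      ∀ v, m ≤ v → (fun n => h (Function.update n k v)) ∈ Inf S k := fun m h => Iff.rfl
    have hXk : ∀ (h : G ℤ → A) (v : ℤ), (fun n => act A (X k : K F ℤ) h (Function.update n k v)) =
        fun n => h (Function.update n k (v + 1)) := by
      intro h v
      funext n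
      rw [act_X]
      congr 1
      funext a
      rw [Pi.add_apply]
      by_cases ha : a = k
      · subst ha
        rw [Function.update_self, Function.update_self, dl_self]
        rfl
      · rw [Function.update_of_ne ha, Function.update_of_ne ha, dl_ne (Ne.symm ha), add_zero]
    have h1 : ∀ m, m ≤ 0 → h ∈ PP m := by
      apply descend PP (S := insert (X k) {f | ∃ i < k, f = Xi F ℤ i}) (b := k)
        (p := chk F k k ^ (2 * N + w.length))
      · apply UF.pow (Algebra.subset_adjoin (Set.mem_insert _ _))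
        apply UF.prod (Algebra.subset_adjoin (Set.mem_insert _ _))
        intro i hi
        apply UF_up
        exact Algebra.subset_adjoin (Set.mem_insert_of_mem _ ⟨i, Finset.mem_range.mp hi, rfl⟩)
      · intro m f hf h' hh'
        rw [hPP] at hh' ⊢
        intro v hv
        rcases hf with rfl | ⟨i, hi, rfl⟩
        · rw [hXk]
          exact hh' (v + 1) (by omega)
        · have h2 : (fun n => act A (Xi F ℤ i) h' (Function.update n k v)) =
              act A (Xi F ℤ i) (fun n => h' (Function.update n k v)) := by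
            funext n
            rw [act_Xi, act_Xi]
            congr 1
            funext a
            rw [Pi.add_apply]
            by_cases ha : a = k
            · subst ha
              rw [Function.update_self, Function.update_self, Pi.single_eq_of_ne (by omega),
                add_zero]
            · rw [Function.update_of_ne ha, Function.update_of_ne ha, Pi.add_apply]
          rw [h2]
          exact Inf_act _ (hh' v hv)
      · intro m h' hh'
        rw [hPP] at hh' ⊢
        intro v hv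
        rw [hXk]
        exact hh' (v + 1) (by omega)
      · intro m
        rw [hPP]
        intro v _
        refine ⟨0, fun n _ => ?_⟩
        apply Submodule.mem_sup_right
        have := rec_word he (P := J.asIdeal) hV (le_refl k) w (Function.update n k v)
        rw [mem_subsp]
        rwa [TwoSidedIdeal.mem_asIdeal] at this
      · rw [hPP]
        intro v hv
        obtain ⟨c, hc⟩ := ih
        refine ⟨c, fun n hn => ?_⟩
        rw [hh]
        beta_reduce
        rw [Function.update_self]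
        have h3 : g (Function.update n k v) = g n := by
          rw [hg]
          beta_reduce
          congr 1
          apply Dep_eta0
          intro i hi
          rw [Function.update_of_ne (by omega)]
        rw [h3]
        obtain ⟨a, ha, b, hb, hab⟩ := Submodule.mem_sup.mp (hc n hn)
        rw [← hab, mul_add]
        exact Submodule.add_mem_sup ((Apos F e).mul_mem (e_mem_Apos hv) ha)
          (mem_subsp.mpr (J.mul_mem_left _ _ (mem_subsp.mp hb)))
    have h2 := (hPP _ _).mp (h1 (min v 0) (min_le_right _ _)) v (min_le_left _ _)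
    have h3 : (fun n => wd e (v :: w) * eta0 F e k N n) =
        fun n => h (Function.update n k v) := by
      funext n
      rw [hh, hg]
      beta_reduce
      rw [Function.update_self, wd_cons, mul_assoc]
      congr 2
      apply Dep_eta0
      intro i hi
      rw [Function.update_of_ne (by omega)]
    rw [h3]
    exact h2

/-- Inclusion from the restriction. -/
lemma inj_aux (he : IsW F e) (hgen : ∀ x : A, ∃ k, x ∈ Fl F e k) {P P' : TwoSidedIdeal A}
    (hP : IsPrimeT P) (hP' : IsPrimeT P') (h0 : P ≠ ⊥) (h0' : P' ≠ ⊥)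
    (hPP : ∀ a ∈ Apos F e, a ∈ P' ↔ a ∈ P) : P' ≤ P := by
  obtain ⟨k, N, hV, hη⟩ := exists_min (F := F) he hgen h0 hP.1
  obtain ⟨k', N', hV', hη'⟩ := exists_min (F := F) he hgen h0' hP'.1
  have h1 : k = k' := le_antisymm (inj_le he hgen hP hV hη hV' fun a ha h => (hPP a ha).mp h)
    (inj_le he hgen hP' hV' hη' hV fun a ha h => (hPP a ha).mpr h)
  subst h1
  have hJ : Dl F ℤ (k + 1) ^ (N + N') ∈ aI e (k + 1) (subsp F (P ⊓ P')) := by
    intro n
    rw [mem_subsp, TwoSidedIdeal.mem_inf]
    exact ⟨mem_subsp.mp (aI_pow_mono (Nat.le_add_right N N') hV n),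
      mem_subsp.mp (aI_pow_mono (Nat.le_add_left N' N) hV' n)⟩
  intro u hu
  have hex : ∃ c : ℤ, ∀ n : G ℤ, (∀ i < k, c ≤ n i) → u * eta0 F e k (N + N') n ∈ P := by
    have h2 : (fun n => u * eta0 F e k (N + N') n) ∈
        Inf (Subalgebra.toSubmodule (Apos F e) ⊔ subsp F (P ⊓ P')) k := by
      obtain ⟨r, hr⟩ := hgen u
      clear hu
      unfold Fl at hr
      induction hr using Submodule.span_induction with
      | mem y hy =>
        obtain ⟨w, -, rfl⟩ := hy
        exact red he hJ w
      | zero =>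
        have : (fun n => (0 : A) * eta0 F e k (N + N') n) = 0 := by
          funext n; rw [zero_mul]; rfl
        rw [this]
        exact Submodule.zero_mem _
      | add y z _ _ hy hz =>
        have : (fun n => (y + z) * eta0 F e k (N + N') n) =
            (fun n => y * eta0 F e k (N + N') n) + fun n => z * eta0 F e k (N + N') n := by
          funext n; rw [add_mul]; rfl
        rw [this]
        exact Submodule.add_mem _ hy hz
      | smul a y _ hy =>
        have : (fun n => (a • y) * eta0 F e k (N + N') n) =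
            a • fun n => y * eta0 F e k (N + N') n := by
          funext n; rw [smul_mul_assoc]; rfl
        rw [this]
        exact Submodule.smul_mem _ a hy
    obtain ⟨c, hc⟩ := h2
    refine ⟨c, fun n hn => ?_⟩
    obtain ⟨a, ha, b, hb, hab⟩ := Submodule.mem_sup.mp (hc n hn)
    beta_reduce at hab
    rw [mem_subsp, TwoSidedIdeal.mem_inf] at hb
    have h3 : a ∈ P' := by
      have h4 : a = u * eta0 F e k (N + N') n - b := by rw [← hab, add_sub_cancel_right]
      rw [h4]
      exact P'.sub_mem (P'.mul_mem_right _ _ hu) hb.2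
    rw [← hab]
    exact P.add_mem ((hPP a ha).mp h3) hb.1
  obtain ⟨c, hc⟩ := hex
  exact key_lemma he hgen hP (aI_pow_mono (Nat.le_add_right N N') hV) hη hc

/-- Nonzero prime ideals with the same restriction are equal. -/
theorem restrict_inj (he : IsW F e) (hgen : ∀ x : A, ∃ k, x ∈ Fl F e k) {P P' : TwoSidedIdeal A}
    (hP : IsPrimeT P) (hP' : IsPrimeT P') (h0 : P ≠ ⊥) (h0' : P' ≠ ⊥)
    (hPP : ∀ a ∈ Apos F e, a ∈ P' ↔ a ∈ P) : P' = P :=
  le_antisymm (inj_aux he hgen hP hP' h0 h0' hPP)
    (inj_aux he hgen hP' hP h0' h0 fun a ha => (hPP a ha).symm)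

end inj

end Pool.Agent.R693.W
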