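import Pool.Agent.R693.R.Surj2
import Pool.Agent.H67.OL.DOM
import Pool.Agent.H67.OL.PBW2
import Pool.Agent.H67.OL.SORT

/-!
The Poincaré–Birkhoff–Witt basis (adapted from `Pool/Agent/Y351/LQ/PBWB.lean`) and consequences for
the Witt algebra.
-/

set_option autoImplicit false
set_option linter.unusedSectionVars false

namespace Pool.Agent.R693.PBW

open H67OL H67OL.DOMaux

/-- The Poincaré–Birkhoff–Witt basis. -/
theorem exists_basis (K : Type) [Field K] (L : Type) [LieRing L] [LieAlgebra K L] (I : Type)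
    [LinearOrder I] (b : Module.Basis I K L) :
    ∃ β : Module.Basis {l : List I // l.Pairwise (· ≤ ·)} K (UniversalEnvelopingAlgebra K L),
      ∀ l, β l = (l.1.map (fun i => UniversalEnvelopingAlgebra.ι K (b i))).prod := by
  classical
  obtain ⟨ρ, hlie, hρ⟩ := t_PBW2 K L I b
  obtain ⟨Φ, hΦ'⟩ : ∃ Φ : UniversalEnvelopingAlgebra K L →ₐ[K]
      Module.End K (MvPolynomial I K), ∀ x, Φ (UniversalEnvelopingAlgebra.ι K x) = ρ x := by
    let _ : LieRing (Module.End K (MvPolynomial I K)) := LieRing.ofAssociativeRing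
    let ρ' : L →ₗ⁅K⁆ Module.End K (MvPolynomial I K) :=
      { ρ with
        map_lie' := by
          intro x y
          rw [LieRing.of_associative_ring_bracket]
          exact hlie x y }
    exact ⟨UniversalEnvelopingAlgebra.lift K ρ', fun x =>
      UniversalEnvelopingAlgebra.lift_ι_apply K ρ' x⟩
  set g : I → UniversalEnvelopingAlgebra K L := fun i => UniversalEnvelopingAlgebra.ι K (b i)
    with hg
  have hΦ : ∀ i, Φ (g i) = ρ (b i) := fun i => hΦ' (b i)
  have hne : ∀ {σ p : MvPolynomial I K}, σ ≠ 0 → p ≠ 0 → Φ (Psi (K := K) g σ) p ≠ 0 :=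
    fun hσ hp => act_ne b ρ g Φ hΦ hρ hσ hp
  have hspan : ∀ x : L, UniversalEnvelopingAlgebra.ι K x ∈ Submodule.span K (Set.range g) := by
    intro x
    rw [← b.linearCombination_repr x, Finsupp.linearCombination_apply, Finsupp.sum, map_sum]
    refine Submodule.sum_mem _ fun i _ => ?_
    rw [map_smul]
    exact Submodule.smul_mem _ _ (Submodule.subset_span ⟨i, rfl⟩)
  have hcomm : ∀ β γ, g β * g γ - g γ * g β ∈ Submodule.span K
      {z | ∃ δ, (fun _ : I => 1) δ ≤ (fun _ : I => 1) β + (fun _ : I => 1) γ ∧ z = g δ} := by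
    intro β γ
    have e : g β * g γ - g γ * g β = UniversalEnvelopingAlgebra.ι K ⁅b β, b γ⁆ := by
      let _ : LieRing (UniversalEnvelopingAlgebra K L) := LieRing.ofAssociativeRing
      rw [LieHom.map_lie, LieRing.of_associative_ring_bracket]
    rw [e]
    refine Submodule.span_mono ?_ (hspan _)
    rintro _ ⟨i, rfl⟩
    exact ⟨i, by simp, rfl⟩
  have hrange : ∀ l : List I, (l.map g).prod ∈ LinearMap.range (Psi (K := K) g) := by
    intro l
    have h3 := t_SORT K (UniversalEnvelopingAlgebra K L) I g (fun _ => 1) hcomm l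
    refine Submodule.span_le.2 ?_ h3
    rintro _ ⟨m, hm, _, rfl⟩
    refine ⟨MvPolynomial.monomial (Multiset.toFinsupp (m : Multiset I)) 1, ?_⟩
    rw [Psi_monomial, one_smul, lst_of_sorted m hm]
  have hsurj : Function.Surjective (Psi (K := K) g) := by
    intro u
    have h4 : u ∈ Algebra.adjoin K (Set.range g) := by
      have := adjoin_top b
      change Algebra.adjoin K (Set.range g) = ⊤ at this
      rw [this]
      exact Algebra.mem_top
    rw [← Subalgebra.mem_toSubmodule, Algebra.adjoin_eq_span] at h4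
    have h5 : Submodule.span K (Submonoid.closure (Set.range g) : Set _) ≤
        LinearMap.range (Psi (K := K) g) := by
      rw [Submodule.span_le]
      intro z hz
      obtain ⟨l, rfl⟩ := mem_closure_range g hz
      exact hrange l
    exact h5 h4
  have hinj : Function.Injective (Psi (K := K) g) := by
    rw [injective_iff_map_eq_zero]
    intro σ h0
    by_contra hσ
    refine hne hσ (one_ne_zero (α := MvPolynomial I K)) ?_
    rw [h0, map_zero]
    rfl
  let e : MvPolynomial I K ≃ₗ[K] UniversalEnvelopingAlgebra K L :=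
    LinearEquiv.ofBijective (Psi (K := K) g) ⟨hinj, hsurj⟩
  let eq : (I →₀ ℕ) ≃ {l : List I // l.Pairwise (· ≤ ·)} :=
    { toFun := fun s => ⟨lst s, Multiset.pairwise_sort _ _⟩
      invFun := fun l => Multiset.toFinsupp (l.1 : Multiset I)
      left_inv := by
        intro s
        change Multiset.toFinsupp ((lst s : List I) : Multiset I) = s
        unfold lst
        rw [Multiset.sort_eq, Finsupp.toMultiset_toFinsupp]
      right_inv := fun l => Subtype.ext (lst_of_sorted l.1 l.2) }
  refine ⟨((MvPolynomial.basisMonomials I K).map e).reindex eq, ?_⟩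
  intro l
  rw [Module.Basis.reindex_apply, Module.Basis.map_apply, MvPolynomial.coe_basisMonomials]
  change Psi (K := K) g (MvPolynomial.monomial (Multiset.toFinsupp (l.1 : Multiset I)) 1) = _
  rw [Psi_monomial, one_smul, lst_of_sorted l.1 l.2]

end Pool.Agent.R693.PBW

namespace Pool.Agent.R693.W

section supp
variable {F : Type*} [Field F] [CharZero F]

lemma supp_mul {ι : Type} [AddCommMonoid ι] {p q : K F ι} {κ : G ι} (h : (p * q).coeff κ ≠ 0) :
    ∃ κ1 κ2, p.coeff κ1 ≠ 0 ∧ q.coeff κ2 ≠ 0 ∧ κ1 + κ2 = κ := by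
  classical
  have h1 : κ ∈ (p * q).coeff.support := Finsupp.mem_support_iff.mpr h
  have h2 := AddMonoidAlgebra.support_coeff_mul_subset p q h1
  rw [Finset.mem_add] at h2
  obtain ⟨κ1, h3, κ2, h4, h5⟩ := h2
  exact ⟨κ1, κ2, Finsupp.mem_support_iff.mp h3, Finsupp.mem_support_iff.mp h4, h5⟩

lemma supp_lab {ι : Type} [AddCommMonoid ι] [Lab ι] {d : ℕ} {f : K F ι}
    (hf : f ∈ Algebra.adjoin F (X '' {a | a < d} : Set (K F ι))) :
    ∀ κ, f.coeff κ ≠ 0 → ∀ i, d ≤ i → κ i = 0 := by
  classical
  induction hf using Algebra.adjoin_induction with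
  | mem f hf =>
    obtain ⟨j, hj, rfl⟩ := hf
    intro κ hκ i hi
    unfold X at hκ
    have h1 : κ = dl j := by
      by_contra h
      apply hκ
      rw [AddMonoidAlgebra.coeff_single, Finsupp.single_eq_of_ne h]
    rw [h1, dl_ne]
    rintro rfl
    exact absurd hj (not_lt.mpr hi)
  | algebraMap r =>
    intro κ hκ i hi
    have h1 : κ = 0 := by
      by_contra h
      apply hκ
      rw [Algebra.algebraMap_eq_smul_one, AddMonoidAlgebra.one_def, AddMonoidAlgebra.smul_single,
        AddMonoidAlgebra.coeff_single, Finsupp.single_eq_of_ne h]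
    rw [h1]; rfl
  | add p q _ _ hp hq =>
    intro κ hκ i hi
    by_cases h : p.coeff κ = 0
    · apply hq κ _ i hi
      intro h'
      apply hκ
      rw [AddMonoidAlgebra.coeff_add, Finsupp.add_apply, h, h', add_zero]
    · exact hp κ h i hi
  | mul p q _ _ hp hq =>
    intro κ hκ i hi
    obtain ⟨κ1, κ2, h1, h2, rfl⟩ := supp_mul hκ
    rw [Pi.add_apply, hp κ1 h1 i hi, hq κ2 h2 i hi, add_zero]

/-- The discriminant is not zero. -/
lemma Dl_pow_ne (d N : ℕ) : Dl F ℤ d ^ N ≠ 0 := by
  let χ : Multiplicative (G ℤ) →* F :=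
    { toFun := fun κ => ∏ i ∈ Finset.range d, ((i : F) + 1) ^ (κ.toAdd i)
      map_one' := by
        simp
      map_mul' := by
        intro κ κ'
        rw [← Finset.prod_mul_distrib]
        refine Finset.prod_congr rfl fun i _ => ?_
        rw [← zpow_add₀]
        · rfl
        · exact_mod_cast Nat.succ_ne_zero i }
  let Ψ : K F ℤ →ₐ[F] F := AddMonoidAlgebra.lift F F (G ℤ) χ
  have hX : ∀ j < d, Ψ (X j) = (j : F) + 1 := by
    intro j hj
    change AddMonoidAlgebra.lift F F (G ℤ) χ (X j) = _
    unfold X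
    rw [AddMonoidAlgebra.lift_single, one_smul]
    change ∏ i ∈ Finset.range d, ((i : F) + 1) ^ ((dl j : G ℤ) i) = _
    rw [Finset.prod_eq_single j]
    · rw [dl_self]
      exact zpow_one _
    · intro i _ hij
      rw [dl_ne (Ne.symm hij), zpow_zero]
    · intro h
      exact absurd (Finset.mem_range.mpr hj) h
  intro h0
  have h1 := congrArg Ψ h0
  rw [map_pow, map_zero] at h1
  unfold Dl at h1
  rw [map_prod] at h1
  have h3 := eq_zero_of_pow_eq_zero h1
  rw [Finset.prod_eq_zero_iff] at h3
  obtain ⟨p, hp, hp'⟩ := h3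
  unfold offd at hp
  simp only [Finset.mem_filter, Finset.mem_product, Finset.mem_range] at hp
  rw [map_sub, hX _ hp.1.1, hX _ hp.1.2] at hp'
  apply hp.2
  have h4 : (p.1 : F) = p.2 := by linear_combination hp'
  exact_mod_cast h4

end supp

section NV
variable {F : Type*} [Field F] [CharZero F] {A : Type*} [Ring A] [Algebra F A] {e : ℤ → A}

/-- The values of the basic function at some nonnegative labels are not zero. -/
lemma exists_ne (hLI : LinearIndependent F
    (fun l : {l : List ℤ // l.Pairwise (· ≤ ·)} => wd e l.1)) (d N : ℕ) :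
    ∃ n : G ℤ, (∀ i < d, 0 ≤ n i) ∧ eta0 F e d N n ≠ 0 := by
  classical
  set D : K F ℤ := Dl F ℤ d ^ N with hD
  set s := D.coeff.support with hs
  set B : ℤ := ∑ κ ∈ s, ∑ i ∈ Finset.range d, |κ i| with hB
  have hBnn : 0 ≤ B := Finset.sum_nonneg fun κ _ => Finset.sum_nonneg fun i _ => abs_nonneg _
  have hBκ : ∀ κ ∈ s, ∀ i < d, |κ i| ≤ B := by
    intro κ hκ i hi
    refine le_trans ?_ (Finset.single_le_sum (f := fun κ : G ℤ => ∑ i ∈ Finset.range d, |κ i|)
      (fun κ _ => Finset.sum_nonneg fun i _ => abs_nonneg _) hκ)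
    exact Finset.single_le_sum (f := fun i => |κ i|) (fun i _ => abs_nonneg _)
      (Finset.mem_range.mpr hi)
  set n0 : G ℤ := fun i => ((d : ℤ) - i) * (2 * B + 1) with hn0
  refine ⟨n0, ?_, ?_⟩
  · intro i hi
    rw [hn0]
    have : (0 : ℤ) ≤ (d : ℤ) - i := by omega
    positivity
  · intro h0
    have hsorted : ∀ κ ∈ s, (tl 0 d (n0 + κ)).Pairwise (· ≤ ·) := by
      intro κ hκ
      unfold tl
      rw [List.pairwise_map, List.pairwise_reverse]
      refine List.Pairwise.imp_of_mem ?_ (List.pairwise_lt_range (n := d))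
      intro a b ha hb hab
      rw [List.mem_range] at ha hb
      rw [zero_add, zero_add, Pi.add_apply, Pi.add_apply, hn0]
      have h1 := hBκ κ hκ a ha
      have h2 := hBκ κ hκ b hb
      rw [abs_le] at h1 h2
      have h3 : ((d : ℤ) - b) * (2 * B + 1) + (2 * B + 1) ≤ ((d : ℤ) - a) * (2 * B + 1) := by
        have h4 : ((d : ℤ) - b) + 1 ≤ (d : ℤ) - a := by omega
        nlinarith
      beta_reduce
      linarith [h1.1, h2.2]
    let f : s → {l : List ℤ // l.Pairwise (· ≤ ·)} := fun κ => ⟨tl 0 d (n0 + κ.1), hsorted κ.1 κ.2⟩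
    have hf : Function.Injective f := by
      intro κ κ' hκκ
      apply Subtype.ext
      have h1 : tl 0 d (n0 + κ.1) = tl 0 d (n0 + κ'.1) := congrArg Subtype.val hκκ
      unfold tl at h1
      rw [List.map_inj_left] at h1
      funext i
      by_cases hi : i < d
      · have h2 := h1 i (by rw [List.mem_reverse, List.mem_range]; exact hi)
        rw [zero_add, Pi.add_apply, Pi.add_apply] at h2
        exact add_left_cancel h2
      · have hmem := supp_lab (Subalgebra.pow_mem _
          (Dl_mem_adj (F := F) (ι := ℤ) (S := {a | a < d}) (k := d) fun i hi => hi) N)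
        rw [hmem κ.1 (Finsupp.mem_support_iff.mp κ.2) i (not_lt.mp hi),
          hmem κ'.1 (Finsupp.mem_support_iff.mp κ'.2) i (not_lt.mp hi)]
    have hLI' := hLI.comp f hf
    rw [linearIndependent_iff'] at hLI'
    have h2 : ∑ κ : s, D.coeff κ.1 • wd e (f κ).1 = 0 := by
      have h3 : eta0 F e d N n0 = ∑ κ ∈ s, D.coeff κ • om e d (n0 + κ) := by
        unfold eta0
        rw [← hD]
        have h4 : D = ∑ κ ∈ s, AddMonoidAlgebra.single κ (D.coeff κ) := by
          ext κ
          rw [AddMonoidAlgebra.coeff_sum, Finsupp.finsetSum_apply]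
          by_cases hκ : κ ∈ s
          · rw [Finset.sum_eq_single κ, AddMonoidAlgebra.coeff_single, Finsupp.single_eq_same]
            · intro κ' _ hne
              rw [AddMonoidAlgebra.coeff_single, Finsupp.single_eq_of_ne (Ne.symm hne)]
            · intro h; exact absurd hκ h
          · rw [Finset.sum_eq_zero]
            · exact Finsupp.notMem_support_iff.mp hκ
            · intro κ' hκ'
              rw [AddMonoidAlgebra.coeff_single, Finsupp.single_eq_of_ne]
              rintro rfl
              exact hκ hκ'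
        conv_lhs => rw [h4]
        rw [map_sum, LinearMap.sum_apply, Finset.sum_apply]
        refine Finset.sum_congr rfl fun κ _ => ?_
        rw [act_single]
      rw [← h0, h3, ← Finset.sum_coe_sort s (fun κ => D.coeff κ • om e d (n0 + κ))]
      refine Finset.sum_congr rfl fun κ _ => ?_
      have h5 := wd_tl (e := e) 0 d (n0 + κ.1)
      simp only [zero_add] at h5
      exact congrArg (fun x => D.coeff κ.1 • x) h5
    have h3 : ∀ κ : s, D.coeff κ.1 = 0 := fun κ => hLI' Finset.univ (fun κ => D.coeff κ.1) h2 κ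
      (Finset.mem_univ _)
    apply Dl_pow_ne (F := F) d N
    rw [← hD]
    ext κ
    rw [AddMonoidAlgebra.coeff_zero, Finsupp.zero_apply]
    by_contra hκ
    exact hκ (h3 ⟨κ, Finsupp.mem_support_iff.mpr hκ⟩)

end NV

end Pool.Agent.R693.W
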