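import Pool.Agent.R693.R.PBW

/-!
Restriction of prime ideals is a bijection, in an abstract form.
-/

set_option autoImplicit false
set_option linter.unusedSectionVars false

namespace Pool.Agent.R693.W

lemma bot_prime {A : Type*} [Ring A] [NoZeroDivisors A] [Nontrivial A] :
    IsPrimeT (⊥ : TwoSidedIdeal A) := by
  apply isPrimeT_of_elt
  · rw [TwoSidedIdeal.mem_bot]
    exact one_ne_zero
  · intro a b h
    have h1 := h 1
    rw [TwoSidedIdeal.mem_bot, mul_one] at h1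
    rw [TwoSidedIdeal.mem_bot, TwoSidedIdeal.mem_bot]
    exact mul_eq_zero.mp h1

section abstract

variable {F : Type} [Field F] [CharZero F] {A Ap : Type} [Ring A] [Ring Ap] [Algebra F A]
  [Algebra F Ap] {e : ℤ → A} {ep : ℕ → Ap}

lemma Apos_eq (φ : Ap →ₐ[F] A) (hφ : ∀ n : ℕ, φ (ep n) = e n) {a : A} (ha : a ∈ Apos F e) :
    ∃ x, φ x = a := by
  have h1 : Apos F e ≤ φ.range := by
    unfold Apos
    rw [Algebra.adjoin_le_iff]
    rintro _ ⟨n, rfl⟩
    exact ⟨ep n, hφ n⟩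
  exact h1 ha

/-- The abstract theorem. -/
theorem restrict_bij (φ : Ap →ₐ[F] A) (hφ : ∀ n : ℕ, φ (ep n) = e n)
    (hinj : Function.Injective φ) (he : IsW F e) (hgen : ∀ x : A, ∃ k, x ∈ Fl F e k)
    (hgenp : ∀ x : Ap, ∃ k, x ∈ Fl F ep k)
    (huniv : ∀ (B : Type) [Ring B] [Algebra F B] (y : ℤ → B), IsW F y →
      ∃ ψ : A →ₐ[F] B, ∀ n, ψ (e n) = y n)
    [NoZeroDivisors A] [Nontrivial A] [NoZeroDivisors Ap] [Nontrivial Ap]
    (hNV : ∀ d N : ℕ, ∃ n : G ℤ, (∀ i < d, 0 ≤ n i) ∧ eta0 F e d N n ≠ 0) :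
    (∀ P : TwoSidedIdeal A, IsPrimeT P → IsPrimeT (TwoSidedIdeal.comap φ P)) ∧
    (∀ P P' : TwoSidedIdeal A, IsPrimeT P → IsPrimeT P' →
      TwoSidedIdeal.comap φ P = TwoSidedIdeal.comap φ P' → P = P') ∧
    ∀ Q : TwoSidedIdeal Ap, IsPrimeT Q → ∃ P, IsPrimeT P ∧ TwoSidedIdeal.comap φ P = Q := by
  have hep : IsW F ep := by
    intro m n j hmn
    apply hinj
    have h2 : (Lab.one : ℕ) = 1 := rfl
    rw [h2] at hmn
    rw [map_sub, map_mul, map_mul, map_smul, hφ, hφ, hφ]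
    exact he m n j (by
      have h2 : (Lab.one : ℤ) = 1 := rfl
      rw [h2]
      exact_mod_cast hmn)
  have hcb : TwoSidedIdeal.comap φ (⊥ : TwoSidedIdeal A) = ⊥ := by
    ext x
    rw [TwoSidedIdeal.mem_comap, TwoSidedIdeal.mem_bot, TwoSidedIdeal.mem_bot]
    exact map_eq_zero_iff φ hinj
  have hwd : ∀ w : List ℕ, φ (wd ep w) = wd (fun n : ℕ => e n) w := by
    intro w
    induction w with
    | nil => rw [wd_nil, wd_nil, map_one]
    | cons v w ih => rw [wd_cons, wd_cons, map_mul, hφ, ih]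
  have key : ∀ P P' : TwoSidedIdeal A, IsPrimeT P → IsPrimeT P' → P ≠ ⊥ →
      TwoSidedIdeal.comap φ P = TwoSidedIdeal.comap φ P' → P' ≠ ⊥ := by
    rintro P P' hP hP' h0 hPP rfl
    obtain ⟨k, N, hV, hη⟩ := exists_min (F := F) he hgen h0 hP.1
    obtain ⟨n, hn, hn0⟩ := hNV (k + 1) N
    have h1 : eta0 F e (k + 1) N n ∈ P := mem_subsp.mp (hV n)
    have h2 : eta0 F e (k + 1) N n ∈ Apos F e := eta0_Pos (k + 1) N n hn
    obtain ⟨q, hq⟩ := Apos_eq φ hφ h2
    have h3 : q ∈ TwoSidedIdeal.comap φ P := by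
      rw [TwoSidedIdeal.mem_comap, hq]
      exact h1
    rw [hPP, hcb, TwoSidedIdeal.mem_bot] at h3
    apply hn0
    rw [← hq, h3, map_zero]
  refine ⟨?_, ?_, ?_⟩
  · intro P hP
    by_cases h0 : P = ⊥
    · rw [h0, hcb]
      exact bot_prime
    · obtain ⟨k, N, hV, hη⟩ := exists_min (F := F) he hgen h0 hP.1
      apply isPrimeT_of_elt
      · rw [TwoSidedIdeal.mem_comap, map_one]
        intro h1
        apply hP.1
        rwa [← TwoSidedIdeal.one_mem_iff]
      · intro a b h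
        rw [TwoSidedIdeal.mem_comap, TwoSidedIdeal.mem_comap]
        apply restrict_prime he hgen hP hV (hη N)
        intro w
        have := h (wd ep w)
        rwa [TwoSidedIdeal.mem_comap, map_mul, map_mul, hwd] at this
  · intro P P' hP hP' hPP
    by_cases h0 : P = ⊥
    · by_cases h0' : P' = ⊥
      · rw [h0, h0']
      · exact absurd h0 (key P' P hP' hP h0' hPP.symm)
    · have h0' := key P P' hP hP' h0 hPP
      apply restrict_inj he hgen hP' hP h0' h0
      intro a ha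
      obtain ⟨x, rfl⟩ := Apos_eq φ hφ ha
      have h1 : x ∈ TwoSidedIdeal.comap φ P ↔ x ∈ TwoSidedIdeal.comap φ P' := by rw [hPP]
      rwa [TwoSidedIdeal.mem_comap, TwoSidedIdeal.mem_comap] at h1
  · intro Q hQ
    by_cases h0 : Q = ⊥
    · exact ⟨⊥, bot_prime, by rw [hcb, h0]⟩
    · obtain ⟨P, hP, hPQ⟩ := Surj.exists_lift φ hφ hep hgenp huniv hQ h0
      refine ⟨P, hP, ?_⟩
      ext x
      rw [TwoSidedIdeal.mem_comap]
      exact hPQ x

end abstract

end Pool.Agent.R693.W
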