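import Mathlib

/-!
Extension of a family of operators satisfying the relations of the positive part of the Witt algebra
and recurrences to the whole Witt algebra.
-/

set_option autoImplicit false
set_option linter.unusedSectionVars false

namespace Pool.Agent.R693.Ext

open Polynomial

variable {R : Type*} [CommRing R] {M : Type*} [AddCommGroup M] [Module R M]

variable (R M) in
/-- The shift of sequences. -/
def sh : Module.End R (ℕ → M) where
  toFun s := fun m => s (m + 1)
  map_add' _ _ := rfl
  map_smul' _ _ := rfl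

variable (R M) in
/-- Multiplication by the index. -/
def nm : Module.End R (ℕ → M) where
  toFun s := fun m => (m : ℤ) • s m
  map_add' _ _ := by
    funext m
    exact smul_add _ _ _
  map_smul' _ _ := by
    funext m
    exact smul_comm _ _ _

lemma sh_nm : sh R M * nm R M = nm R M * sh R M + sh R M := by
  apply LinearMap.ext
  intro s
  funext m
  change ((m + 1 : ℕ) : ℤ) • s (m + 1) = (m : ℤ) • s (m + 1) + s (m + 1)
  push_cast
  rw [add_smul, one_smul]

lemma shpow_nm (n : ℕ) : sh R M ^ n * nm R M = nm R M * sh R M ^ n + (n : ℤ) • sh R M ^ n := by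
  induction n with
  | zero => simp
  | succ n ih =>
    rw [pow_succ, mul_assoc, sh_nm, mul_add, ← mul_assoc, ih, add_mul, mul_assoc]
    push_cast
    rw [add_smul, one_smul, smul_mul_assoc]
    abel

lemma aeval_nm (Q : R[X]) : aeval (sh R M) Q * nm R M = nm R M * aeval (sh R M) Q +
    sh R M * aeval (sh R M) (derivative Q) := by
  induction Q using Polynomial.induction_on' with
  | add p q hp hq =>
    rw [map_add, add_mul, hp, hq, map_add, map_add, mul_add, mul_add]
    abel
  | monomial n a =>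
    rw [derivative_monomial, aeval_monomial, aeval_monomial, mul_assoc, shpow_nm]
    have h1 : algebraMap R (Module.End R (ℕ → M)) a * (nm R M * sh R M ^ n) =
        nm R M * (algebraMap R (Module.End R (ℕ → M)) a * sh R M ^ n) := by
      rw [← mul_assoc, Algebra.commutes, mul_assoc]
    rw [mul_add, h1]
    congr 1
    cases n with
    | zero => simp
    | succ n =>
      rw [Nat.add_sub_cancel, map_mul, map_natCast, mul_assoc, ← mul_assoc (sh R M),
        ← Algebra.commutes a (sh R M), mul_assoc]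
      congr 1
      rw [zsmul_eq_mul]
      push_cast
      have h2 : Commute (sh R M) ((n : Module.End R (ℕ → M)) + 1) :=
        (Nat.cast_commute n (sh R M)).symm.add_right (Commute.one_right _)
      rw [← mul_assoc, h2.eq, mul_assoc, pow_succ']

/-- Sequences killed by a power of `P`. -/
def TT (P : R[X]) : Submodule R (ℕ → M) where
  carrier := {s | ∃ r, aeval (sh R M) (P ^ r) s = 0}
  add_mem' := by
    rintro s t ⟨r, hr⟩ ⟨r', hr'⟩
    refine ⟨r + r', ?_⟩
    rw [pow_add, map_add]
    have h1 : aeval (sh R M) (P ^ r * P ^ r') s = 0 := by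
      rw [mul_comm, map_mul, Module.End.mul_apply, hr, map_zero]
    have h2 : aeval (sh R M) (P ^ r * P ^ r') t = 0 := by
      rw [map_mul, Module.End.mul_apply, hr', map_zero]
    rw [h1, h2, add_zero]
  zero_mem' := ⟨0, map_zero _⟩
  smul_mem' := by
    rintro a s ⟨r, hr⟩
    exact ⟨r, by rw [map_smul, hr, smul_zero]⟩

lemma mem_TT {P : R[X]} {s : ℕ → M} : s ∈ TT P ↔ ∃ r, aeval (sh R M) (P ^ r) s = 0 := Iff.rfl

lemma TT_aeval {P : R[X]} (Q : R[X]) {s : ℕ → M} (hs : s ∈ TT P) : aeval (sh R M) Q s ∈ TT P := by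
  obtain ⟨r, hr⟩ := hs
  refine ⟨r, ?_⟩
  rw [← Module.End.mul_apply, ← map_mul, mul_comm, map_mul, Module.End.mul_apply, hr, map_zero]

lemma TT_sh {P : R[X]} {s : ℕ → M} (hs : s ∈ TT P) : sh R M s ∈ TT P := by
  have := TT_aeval X hs
  rwa [aeval_X] at this

lemma TT_nm {P : R[X]} {s : ℕ → M} (hs : s ∈ TT P) : nm R M s ∈ TT P := by
  obtain ⟨r, hr⟩ := hs
  refine ⟨r + 1, ?_⟩
  rw [← Module.End.mul_apply, aeval_nm, LinearMap.add_apply, Module.End.mul_apply,
    Module.End.mul_apply]
  have h1 : aeval (sh R M) (P ^ (r + 1)) s = 0 := by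
    rw [pow_succ', map_mul, Module.End.mul_apply, hr, map_zero]
  have h2 : aeval (sh R M) (derivative (P ^ (r + 1))) s = 0 := by
    have h3 : derivative (P ^ (r + 1)) = (C ((r + 1 : ℕ) : R) * derivative P) * P ^ r := by
      rw [derivative_pow, Nat.add_sub_cancel]
      ring
    rw [h3, map_mul, Module.End.mul_apply, hr, map_zero]
  rw [h1, h2, map_zero, map_zero, add_zero]

/-- The shift on killed sequences. -/
def shT (P : R[X]) : Module.End R (TT (M := M) P) :=
  (sh R M).restrict fun _ hs => TT_sh hs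

/-- Multiplication by the index on killed sequences. -/
def nmT (P : R[X]) : Module.End R (TT (M := M) P) :=
  (nm R M).restrict fun _ hs => TT_nm hs

lemma shT_nmT (P : R[X]) : shT (M := M) P * nmT P = nmT P * shT P + shT P := by
  apply LinearMap.ext
  intro s
  apply Subtype.ext
  have := congrArg (fun f => f (s : ℕ → M)) (sh_nm (R := R) (M := M))
  exact this

lemma shT_bij {P : R[X]} (hP : IsUnit (P.coeff 0)) : Function.Bijective (shT (M := M) P) := by
  have key : ∀ r : ℕ, ∃ (u : R) (Q : R[X]), C u * P ^ r = 1 - Q * X := by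
    intro r
    obtain ⟨u, hu⟩ : IsUnit ((P ^ r).coeff 0) := by
      rw [coeff_zero_eq_eval_zero, eval_pow, ← coeff_zero_eq_eval_zero]
      exact hP.pow r
    refine ⟨(u⁻¹ : Rˣ), -(C ((u⁻¹ : Rˣ) : R) * divX (P ^ r)), ?_⟩
    have h1 := divX_mul_X_add (P ^ r)
    have h2 : (C ((u⁻¹ : Rˣ) : R) : R[X]) * C ((P ^ r).coeff 0) = 1 := by
      rw [← hu, ← C_mul, Units.inv_mul, C_1]
    calc (C ((u⁻¹ : Rˣ) : R) : R[X]) * P ^ r
        = C ((u⁻¹ : Rˣ) : R) * (divX (P ^ r) * X + C ((P ^ r).coeff 0)) := by rw [h1]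
      _ = 1 - -(C ((u⁻¹ : Rˣ) : R) * divX (P ^ r)) * X := by
          rw [mul_add, h2]; ring
  constructor
  · rw [injective_iff_map_eq_zero]
    rintro ⟨s, hs⟩ h0
    obtain ⟨r, hr⟩ := hs
    obtain ⟨u, Q, hQ⟩ := key r
    have h1 : sh R M s = 0 := congrArg Subtype.val h0
    have h2 : aeval (sh R M) (C u * P ^ r) s = 0 := by
      rw [map_mul, Module.End.mul_apply, hr, map_zero]
    rw [hQ, map_sub, map_one, LinearMap.sub_apply, map_mul, Module.End.mul_apply, aeval_X, h1,
      map_zero, sub_zero] at h2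
    exact Subtype.ext h2
  · rintro ⟨s, hs⟩
    obtain ⟨r, hr⟩ := hs
    obtain ⟨u, Q, hQ⟩ := key r
    refine ⟨⟨aeval (sh R M) Q s, TT_aeval Q ⟨r, hr⟩⟩, ?_⟩
    apply Subtype.ext
    change sh R M (aeval (sh R M) Q s) = s
    have h2 : aeval (sh R M) (C u * P ^ r) s = 0 := by
      rw [map_mul, Module.End.mul_apply, hr, map_zero]
    rw [hQ, mul_comm Q, map_sub, map_one, LinearMap.sub_apply, map_mul, Module.End.mul_apply,
      aeval_X] at h2
    exact (sub_eq_zero.mp h2).symm

/-- The shift as a unit. -/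
noncomputable def U {P : R[X]} (hP : IsUnit (P.coeff 0)) : (Module.End R (TT (M := M) P))ˣ :=
  (Module.End.isUnit_iff _).mpr (shT_bij hP) |>.unit

lemma U_val {P : R[X]} (hP : IsUnit (P.coeff 0)) :
    ((U (M := M) hP : (Module.End R (TT (M := M) P))ˣ) : Module.End R (TT (M := M) P)) = shT P :=
  IsUnit.unit_spec _

lemma zrel {P : R[X]} (hP : IsUnit (P.coeff 0)) (n : ℤ) :
    ((U (M := M) hP ^ n : (Module.End R (TT (M := M) P))ˣ) : Module.End R (TT (M := M) P)) *
      nmT P = nmT P * ((U hP ^ n : (Module.End R (TT (M := M) P))ˣ) : Module.End R (TT P)) +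
        n • ((U hP ^ n : (Module.End R (TT (M := M) P))ˣ) : Module.End R (TT P)) := by
  set V : (Module.End R (TT (M := M) P))ˣ := U hP with hV
  have h0 : (V : Module.End R (TT (M := M) P)) * nmT P =
      nmT P * (V : Module.End R (TT (M := M) P)) + (V : Module.End R (TT (M := M) P)) := by
    rw [hV, U_val]
    exact shT_nmT P
  set Vi : Module.End R (TT (M := M) P) := (V⁻¹ : (Module.End R (TT (M := M) P))ˣ).val with hVi
  have i1 : Vi * (V : Module.End R (TT (M := M) P)) = 1 := Units.inv_mul V
  have i2 : (V : Module.End R (TT (M := M) P)) * Vi = 1 := Units.mul_inv V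
  have h0' : nmT P * Vi = Vi * nmT P + Vi := by
    have h1 : Vi * ((V : Module.End R (TT (M := M) P)) * nmT P) * Vi =
        Vi * (nmT P * (V : Module.End R (TT (M := M) P)) +
          (V : Module.End R (TT (M := M) P))) * Vi := by rw [h0]
    rw [← mul_assoc, i1, one_mul, mul_add, add_mul, ← mul_assoc,
      mul_assoc _ (V : Module.End R (TT (M := M) P)) Vi, i2, mul_one, i1, one_mul] at h1
    exact h1
  induction n using Int.induction_on with
  | zero => simp
  | succ i ih =>
    rw [zpow_add_one, Units.val_mul, mul_assoc, h0, mul_add, ← mul_assoc, ih, add_mul, mul_assoc,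
      add_smul, one_smul, smul_mul_assoc]
    abel
  | pred i ih =>
    rw [zpow_sub_one, Units.val_mul, ← hVi]
    set Y : Module.End R (TT (M := M) P) := (V ^ (-(i : ℤ)) : (Module.End R (TT (M := M) P))ˣ).val
      with hY
    have h1 : Y * (nmT P * Vi) = Y * (Vi * nmT P + Vi) := by rw [h0']
    rw [← mul_assoc, ih, add_mul, mul_add, smul_mul_assoc, mul_assoc (nmT P), ← mul_assoc Y] at h1
    have h2 : (-(i : ℤ) - 1) • (Y * Vi) + Y * Vi = -(i : ℤ) • (Y * Vi) := by
      have h3 : Y * Vi = (1 : ℤ) • (Y * Vi) := (one_smul ℤ _).symm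
      conv_lhs => rw [h3]
      rw [smul_smul, mul_one, ← add_smul]
      simp
    have h4 : Y * Vi * nmT P + Y * Vi = (nmT P * (Y * Vi) + (-(i : ℤ) - 1) • (Y * Vi)) + Y * Vi := by
      rw [add_assoc, h2]
      exact h1.symm
    apply LinearMap.ext
    intro s
    have h5 := LinearMap.congr_fun h4 s
    rw [LinearMap.add_apply, LinearMap.add_apply (nmT P * (Y * Vi) + _)] at h5
    exact add_right_cancel h5

/-- The value of the extension. -/
noncomputable def val {P : R[X]} (hP : IsUnit (P.coeff 0)) (n : ℤ) : TT (M := M) P →ₗ[R] M :=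
  (LinearMap.proj 0).comp ((TT (M := M) P).subtype.comp
    ((U (M := M) hP ^ n : (Module.End R (TT (M := M) P))ˣ) : Module.End R (TT (M := M) P)))

lemma val_apply {P : R[X]} (hP : IsUnit (P.coeff 0)) (n : ℤ) (s : TT (M := M) P) :
    val hP n s = (((U (M := M) hP ^ n : (Module.End R (TT (M := M) P))ˣ) :
      Module.End R (TT (M := M) P)) s : ℕ → M) 0 := rfl

lemma val_nat {P : R[X]} (hP : IsUnit (P.coeff 0)) (m : ℕ) (s : TT (M := M) P) :
    val hP m s = (s : ℕ → M) m := by
  rw [val_apply, zpow_natCast, Units.val_pow_eq_pow_val, U_val]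
  induction m generalizing s with
  | zero => rfl
  | succ m ih =>
    rw [pow_succ, Module.End.mul_apply, ih]
    rfl

lemma val_add {P : R[X]} (hP : IsUnit (P.coeff 0)) (n m : ℤ) (s : TT (M := M) P) :
    val hP n (((U (M := M) hP ^ m : (Module.End R (TT (M := M) P))ˣ) :
      Module.End R (TT (M := M) P)) s) = val hP (n + m) s := by
  rw [val_apply, val_apply, zpow_add, Units.val_mul, Module.End.mul_apply]

lemma U_apply {P : R[X]} (hP : IsUnit (P.coeff 0)) (n : ℤ) (m : ℕ) (s : TT (M := M) P) :
    (((U (M := M) hP ^ n : (Module.End R (TT (M := M) P))ˣ) :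
      Module.End R (TT (M := M) P)) s : ℕ → M) m = val hP (m + n) s := by
  rw [← val_nat hP, val_add]

lemma val_nm {P : R[X]} (hP : IsUnit (P.coeff 0)) (n : ℤ) (s : TT (M := M) P) :
    val hP n (nmT P s) = n • val hP n s := by
  rw [val_apply, val_apply, ← Module.End.mul_apply, zrel, LinearMap.add_apply,
    Module.End.mul_apply]
  have h1 : ∀ t : TT (M := M) P, ((nmT P t : TT (M := M) P) : ℕ → M) 0 = 0 := by
    intro t
    change ((0 : ℕ) : ℤ) • (t : ℕ → M) 0 = 0
    simp
  rw [Submodule.coe_add, Pi.add_apply, h1, zero_add]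
  rfl

lemma sh_pow_apply (n : ℕ) : ∀ s : ℕ → M, (sh R M ^ n) s = fun m => s (m + n) := by
  induction n with
  | zero => intro s; rfl
  | succ n ih =>
    intro s
    rw [pow_succ, Module.End.mul_apply, ih]
    rfl

lemma aeval_map' {M' : Type*} [AddCommGroup M'] [Module R M'] (φ : M →ₗ[R] M') (Q : R[X])
    (s : ℕ → M) :
    aeval (sh R M') Q (fun m => φ (s m)) = fun m => φ (aeval (sh R M) Q s m) := by
  induction Q using Polynomial.induction_on' with
  | add p q hp hq =>
    rw [map_add, LinearMap.add_apply, hp, hq]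
    funext m
    rw [map_add, LinearMap.add_apply, Pi.add_apply, Pi.add_apply, map_add]
  | monomial n a =>
    rw [aeval_monomial, aeval_monomial, Module.End.mul_apply, Module.End.mul_apply,
      Module.algebraMap_end_apply, Module.algebraMap_end_apply, sh_pow_apply, sh_pow_apply]
    funext m
    rw [Pi.smul_apply, Pi.smul_apply, map_smul]

lemma aeval_comp (φ : Module.End R M) (Q : R[X]) (s : ℕ → M) :
    aeval (sh R M) Q (fun m => φ (s m)) = fun m => φ (aeval (sh R M) Q s m) := by
  induction Q using Polynomial.induction_on' with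
  | add p q hp hq =>
    rw [map_add, LinearMap.add_apply, hp, hq, LinearMap.add_apply]
    funext m
    rw [Pi.add_apply, Pi.add_apply, map_add]
  | monomial n a =>
    rw [aeval_monomial, Module.End.mul_apply, Module.End.mul_apply, Module.algebraMap_end_apply,
      Module.algebraMap_end_apply]
    have h1 : ∀ (n : ℕ) (s : ℕ → M), (sh R M ^ n) s = fun m => s (m + n) := by
      intro n
      induction n with
      | zero => intro s; rfl
      | succ n ih =>
        intro s
        rw [pow_succ, Module.End.mul_apply, ih]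
        rfl
    rw [h1, h1]
    funext m
    rw [Pi.smul_apply, Pi.smul_apply, map_smul]

/-- The action of an endomorphism on sequences. -/
noncomputable def push (P : R[X]) (φ : Module.End R M) : Module.End R (TT (M := M) P) :=
  (LinearMap.compLeft φ ℕ).restrict fun s hs => by
    obtain ⟨r, hr⟩ := hs
    refine ⟨r, ?_⟩
    have := aeval_comp φ (P ^ r) s
    rw [hr] at this
    refine this.trans ?_
    funext m
    exact map_zero φ

lemma push_apply (P : R[X]) (φ : Module.End R M) (s : TT (M := M) P) (m : ℕ) :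
    (push P φ s : ℕ → M) m = φ ((s : ℕ → M) m) := rfl

lemma val_push {P : R[X]} (hP : IsUnit (P.coeff 0)) (φ : Module.End R M) (n : ℤ)
    (s : TT (M := M) P) : val hP n (push P φ s) = φ (val hP n s) := by
  have h0 : Commute (U (M := M) hP : Module.End R (TT (M := M) P)) (push P φ) := by
    rw [U_val]
    rfl
  have h1 : Commute ((U (M := M) hP ^ n : (Module.End R (TT (M := M) P))ˣ) :
      Module.End R (TT (M := M) P)) (push P φ) := by
    induction n using Int.induction_on with
    | zero => simp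
    | succ i ih => rw [zpow_add_one, Units.val_mul]; exact ih.mul_left h0
    | pred i ih =>
      rw [zpow_sub_one, Units.val_mul]
      exact ih.mul_left h0.units_inv_left
  rw [val_apply, val_apply, ← Module.End.mul_apply, h1.eq, Module.End.mul_apply, push_apply]

/-- The extension theorem. -/
theorem exists_ext {P : R[X]} (hP : IsUnit (P.coeff 0)) (ρ : ℕ → Module.End R M)
    (hρ : ∀ m n j : ℕ, m + n = j + 1 → ρ m * ρ n - ρ n * ρ m = ((n : ℤ) - m) • ρ j)
    (hS : ∀ f : M, (fun m => ρ m f) ∈ TT P) :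
    ∃ ρ' : ℤ → Module.End R M, (∀ n : ℕ, ρ' n = ρ n) ∧
      ∀ m n : ℤ, ρ' m * ρ' n - ρ' n * ρ' m = (n - m) • ρ' (m + n - 1) := by
  let S : M →ₗ[R] TT (M := M) P :=
    { toFun := fun f => ⟨fun m => ρ m f, hS f⟩
      map_add' := fun f g => Subtype.ext (by funext m; exact map_add _ _ _)
      map_smul' := fun a f => Subtype.ext (by funext m; exact map_smul _ _ _) }
  have hSa : ∀ f m, (S f : ℕ → M) m = ρ m f := fun _ _ => rfl
  let ρ' : ℤ → Module.End R M := fun n => (val hP n).comp S
  have hρ' : ∀ n f, ρ' n f = val hP n (S f) := fun _ _ => rfl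
  have hnat : ∀ n : ℕ, ρ' n = ρ n := by
    intro n
    apply LinearMap.ext
    intro f
    rw [hρ', val_nat, hSa]
  refine ⟨ρ', hnat, ?_⟩
  -- the first relation
  have r1 : ∀ (v : ℕ) (f : M), S (ρ v f) = push P (ρ v) (S f) +
      ((v : ℤ) • ((U (M := M) hP ^ ((v : ℤ) - 1) : (Module.End R (TT (M := M) P))ˣ) :
        Module.End R (TT (M := M) P)) (S f) -
      nmT P (((U (M := M) hP ^ ((v : ℤ) - 1) : (Module.End R (TT (M := M) P))ˣ) :
        Module.End R (TT (M := M) P)) (S f))) := by
    intro v f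
    apply Subtype.ext
    funext m
    have e1 : ((push P (ρ v) (S f) + ((v : ℤ) • ((U (M := M) hP ^ ((v : ℤ) - 1) :
        (Module.End R (TT (M := M) P))ˣ) : Module.End R (TT (M := M) P)) (S f) -
        nmT P (((U (M := M) hP ^ ((v : ℤ) - 1) : (Module.End R (TT (M := M) P))ˣ) :
          Module.End R (TT (M := M) P)) (S f))) : TT (M := M) P) : ℕ → M) m =
        ρ v (ρ m f) + ((v : ℤ) • val hP (m + (v - 1)) (S f) -
          (m : ℤ) • val hP (m + (v - 1)) (S f)) := by
      rw [← U_apply]
      rfl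
    rw [e1, hSa, ← sub_smul]
    by_cases h : m + v = 0
    · have hm : m = 0 := by omega
      have hv : v = 0 := by omega
      subst hm
      subst hv
      simp
    · obtain ⟨j, hj⟩ : ∃ j, m + v = j + 1 := Nat.exists_eq_succ_of_ne_zero h
      have h1 : (m : ℤ) + (v - 1) = (j : ℕ) := by omega
      rw [h1, val_nat, hSa]
      have h2 := congrArg (fun g => g f) (hρ m v j hj)
      change ρ m (ρ v f) - ρ v (ρ m f) = ((v : ℤ) - m) • ρ j f at h2
      rw [← h2]
      abel
  have r2 : ∀ (n : ℤ) (v : ℕ) (f : M), ρ' n (ρ v f) = ρ v (ρ' n f) +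
      ((v : ℤ) - n) • ρ' (n + v - 1) f := by
    intro n v f
    rw [hρ', r1, map_add, map_sub, map_zsmul, val_push, val_nm, val_add, hρ', hρ', ← sub_smul,
      add_sub_assoc]
  have r3 : ∀ (v : ℤ) (f : M), S (ρ' v f) = push P (ρ' v) (S f) +
      (v • ((U (M := M) hP ^ (v - 1) : (Module.End R (TT (M := M) P))ˣ) :
        Module.End R (TT (M := M) P)) (S f) -
      nmT P (((U (M := M) hP ^ (v - 1) : (Module.End R (TT (M := M) P))ˣ) :
        Module.End R (TT (M := M) P)) (S f))) := by
    intro v f
    apply Subtype.ext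
    funext m
    have e1 : ((push P (ρ' v) (S f) + (v • ((U (M := M) hP ^ (v - 1) :
        (Module.End R (TT (M := M) P))ˣ) : Module.End R (TT (M := M) P)) (S f) -
        nmT P (((U (M := M) hP ^ (v - 1) : (Module.End R (TT (M := M) P))ˣ) :
          Module.End R (TT (M := M) P)) (S f))) : TT (M := M) P) : ℕ → M) m =
        ρ' v (ρ m f) + (v • val hP (m + (v - 1)) (S f) -
          (m : ℤ) • val hP (m + (v - 1)) (S f)) := by
      rw [← U_apply]
      rfl
    rw [e1, hSa, ← sub_smul, r2, ← hρ']
    have h1 : v + (m : ℤ) - 1 = m + (v - 1) := by ring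
    rw [h1, add_assoc, ← add_smul]
    simp
  intro n v
  apply LinearMap.ext
  intro f
  change ρ' n (ρ' v f) - ρ' v (ρ' n f) = (v - n) • ρ' (n + v - 1) f
  rw [hρ' n (ρ' v f), r3, map_add, map_sub, map_zsmul, val_push, val_nm, val_add, ← hρ', ← hρ',
    ← sub_smul, add_sub_cancel_left, add_sub_assoc]

end Pool.Agent.R693.Ext
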