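import Pool.Agent.R693.R.Inj
import Pool.Agent.R693.R.Ext

/-!
Elements annihilating the basic function at infinity, in the positive part.
-/

set_option autoImplicit false
set_option linter.unusedSectionVars false

namespace Pool.Agent.R693.W

section zorn
variable {A : Type*} [Ring A]

/-- Prime ideals avoiding a set. -/
lemma exists_prime_disj {P0 : TwoSidedIdeal A} {S : Set A} (hne : S.Nonempty)
    (hmul : ∀ s ∈ S, ∀ t ∈ S, ∃ a, s * a * t ∈ S) (hdisj : ∀ s ∈ S, s ∉ P0) :
    ∃ P, IsPrimeT P ∧ P0 ≤ P ∧ ∀ s ∈ S, s ∉ P := by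
  have hzorn := zorn_le_nonempty₀ {P : TwoSidedIdeal A | P0 ≤ P ∧ ∀ s ∈ S, s ∉ P} (by
    intro c hc hchain y hy
    refine ⟨TwoSidedIdeal.mk' {z | ∃ P ∈ c, z ∈ P} ⟨y, hy, y.zero_mem⟩ ?_ ?_ ?_ ?_, ?_, ?_⟩
    · rintro z z' ⟨P, hP, hz⟩ ⟨P', hP', hz'⟩
      rcases hchain.total hP hP' with h | h
      · exact ⟨P', hP', P'.add_mem (h hz) hz'⟩
      · exact ⟨P, hP, P.add_mem hz (h hz')⟩
    · rintro z ⟨P, hP, hz⟩
      exact ⟨P, hP, P.neg_mem hz⟩
    · rintro z z' ⟨P, hP, hz⟩
      exact ⟨P, hP, P.mul_mem_left _ _ hz⟩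
    · rintro z z' ⟨P, hP, hz⟩
      exact ⟨P, hP, P.mul_mem_right _ _ hz⟩
    · refine ⟨fun z hz => ?_, fun s hs hn => ?_⟩
      · rw [TwoSidedIdeal.mem_mk']
        exact ⟨y, hy, (hc hy).1 hz⟩
      · rw [TwoSidedIdeal.mem_mk'] at hn
        obtain ⟨P, hP, hn⟩ := hn
        exact (hc hP).2 s hs hn
    · intro P hP z hz
      rw [TwoSidedIdeal.mem_mk']
      exact ⟨P, hP, hz⟩) P0 ⟨le_refl P0, hdisj⟩
  obtain ⟨P, hSP, hP⟩ := hzorn
  have hPx : ∀ s ∈ S, s ∉ P := hP.1.2
  refine ⟨P, ⟨?_, ?_⟩, hSP, hPx⟩
  · rintro rfl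
    obtain ⟨s, hs⟩ := hne
    exact hPx s hs (TwoSidedIdeal.mem_top _)
  · intro I J hIJ
    by_contra hcon
    push Not at hcon
    have key : ∀ I : TwoSidedIdeal A, ¬ I ≤ P → ∃ s ∈ S, s ∈ P ⊔ I := by
      intro I hI
      by_contra h
      push Not at h
      have h2 : P ⊔ I ≤ P := hP.2 ⟨hSP.trans le_sup_left, h⟩ le_sup_left
      exact hI (le_sup_right.trans h2)
    obtain ⟨s, hs, hsI⟩ := key I hcon.1
    obtain ⟨t, ht, htJ⟩ := key J hcon.2
    obtain ⟨a, ha⟩ := hmul s hs t ht
    apply hPx _ ha
    rw [TwoSidedIdeal.mem_sup] at hsI htJ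
    obtain ⟨p, hp, i, hi, rfl⟩ := hsI
    obtain ⟨p', hp', j, hj, rfl⟩ := htJ
    have h4 : (p + i) * a * (p' + j) = p * (a * (p' + j)) + (i * a * p' + i * a * j) := by
      noncomm_ring
    rw [h4]
    exact P.add_mem (P.mul_mem_right _ _ hp)
      (P.add_mem (P.mul_mem_left _ _ hp') (hIJ _ (I.mul_mem_right _ _ hi) _ hj))

end zorn

section chain
variable {F : Type*} [Field F] [CharZero F] {ι : Type} [AddCommMonoid ι] [Lab ι]
variable {A : Type*} [Ring A] [Algebra F A] {e : ι → A}

lemma chain_LL (he : IsW F e) (hgen : ∀ x : A, ∃ k, x ∈ Fl F e k) (J : Ideal A) (N d : ℕ)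
    (hV : Dl F ι (d + 1) ^ N ∈ aI e (d + 1) (J.restrictScalars F))
    (I : ℕ → Ideal A) (hmono : Monotone I) :
    ∃ n0, ∀ m, n0 ≤ m → LL (ι := ι) F e J d N (I m) = LL F e J d N (I n0) := by
  exact Noeth.acc (ρ := rho F e J d) (η := eta F e J d N)
    (s := fun i : Fin (d * (2 * N)) => (i : ℕ) • (Lab.one : ι)) (rho_comm J he d)
    (fun m => eta_span J N d hV m) (fun i => LL F e J d N (I i))
    (fun i j hij => Submodule.span_mono (fun f ⟨u, hu, hf⟩ => ⟨u, hmono hij hu, hf⟩))
    (by
      intro i m x hx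
      unfold LL at hx
      induction hx using Submodule.span_induction with
      | mem y hy =>
        obtain ⟨u, hu, rfl⟩ := hy
        apply Submodule.subset_span
        refine ⟨e m * u, (I i).mul_mem_left _ hu, ?_⟩
        funext n
        rw [rho_apply, mul_assoc]
        rfl
      | zero => rw [map_zero]; exact Submodule.zero_mem _
      | add y z _ _ hy hz => rw [map_add]; exact Submodule.add_mem _ hy hz
      | smul a y _ hy => rw [map_smul]; exact Submodule.smul_mem _ _ hy)
    (by
      intro i x hx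
      unfold LL at hx
      induction hx using Submodule.span_induction with
      | mem y hy =>
        obtain ⟨u, hu, rfl⟩ := hy
        obtain ⟨k, hk⟩ := hgen u
        refine ⟨k, ?_⟩
        clear hu
        unfold Fl at hk
        induction hk using Submodule.span_induction with
        | mem z hz =>
          obtain ⟨w, hw, rfl⟩ := hz
          rw [← wd_eta J d N w]
          exact Noeth.wd_mem hw
        | zero =>
          have : (fun n => Submodule.Quotient.mk ((0 : A) * eta0 F e d N n) : VV (ι := ι) J) = 0 := by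
            funext n
            rw [zero_mul]; rfl
          rw [this]
          exact Submodule.zero_mem _
        | add z z' _ _ hz hz' =>
          have : (fun n => Submodule.Quotient.mk ((z + z') * eta0 F e d N n) : VV (ι := ι) J) =
              (fun n => Submodule.Quotient.mk (z * eta0 F e d N n)) +
                fun n => Submodule.Quotient.mk (z' * eta0 F e d N n) := by
            funext n
            rw [add_mul]; rfl
          rw [this]
          exact Submodule.add_mem _ hz hz'
        | smul r z _ hz =>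
          have : (fun n => Submodule.Quotient.mk ((r • z) * eta0 F e d N n) : VV (ι := ι) J) =
              algebraMap F (Rd F ι d) r •
                (fun n => Submodule.Quotient.mk (z * eta0 F e d N n) : VV (ι := ι) J) := by
            rw [smul_VV]
            have h3 : ((algebraMap F (Rd F ι d) r : Rd F ι d) : K F ι) =
              algebraMap F (K F ι) r := rfl
            rw [h3, AlgHom.commutes, Module.algebraMap_end_apply]
            funext n
            rw [smul_mul_assoc]
            rfl
          rw [this]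
          exact Submodule.smul_mem _ _ hz
      | zero => exact ⟨0, Submodule.zero_mem _⟩
      | add y z _ _ hy hz =>
        obtain ⟨k, hk⟩ := hy
        obtain ⟨l, hl⟩ := hz
        exact ⟨max k l, Submodule.add_mem _ (Noeth.Fl_mono (le_max_left _ _) hk)
          (Noeth.Fl_mono (le_max_right _ _) hl)⟩
      | smul a y _ hy =>
        obtain ⟨k, hk⟩ := hy
        exact ⟨k, Submodule.smul_mem _ _ hk⟩)

end chain

section pos
variable {F : Type*} [Field F] [CharZero F] {A : Type*} [Ring A] [Algebra F A] {e : ℕ → A}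

/-- Shifts in natural labels preserve regions. -/
lemma act_region {M : Type*} [AddCommGroup M] [Module F M] (S : Submodule F M) {k c : ℕ}
    (p : K F ℕ) {f : G ℕ → M} (hf : ∀ n : G ℕ, (∀ i < k, c ≤ n i) → f n ∈ S) (n : G ℕ)
    (hn : ∀ i < k, c ≤ n i) : act M p f n ∈ S := by
  induction p using AddMonoidAlgebra.induction_linear with
  | zero => rw [map_zero]; exact S.zero_mem
  | add p q hp hq => rw [map_add, LinearMap.add_apply, Pi.add_apply]; exact S.add_mem hp hq
  | single κ r =>
    rw [act_single]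
    apply S.smul_mem
    apply hf
    intro i hi
    have := hn i hi
    rw [Pi.add_apply]
    omega

/-- The left ideal of elements annihilating the basic function from `c` on. -/
noncomputable def Uc (e : ℕ → A) (F : Type*) [Field F] [Algebra F A] (Q : TwoSidedIdeal A)
    (k N c : ℕ) : Ideal A where
  carrier := {u | ∀ n : G ℕ, (∀ i < k, c ≤ n i) → u * eta0 F e k N n ∈ Q}
  add_mem' := fun ha hb n hn => by rw [add_mul]; exact Q.add_mem (ha n hn) (hb n hn)
  zero_mem' := fun n _ => by rw [zero_mul]; exact Q.zero_mem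
  smul_mem' := fun a x hx n hn => by
    rw [smul_eq_mul, mul_assoc]; exact Q.mul_mem_left _ _ (hx n hn)

lemma mem_Uc {Q : TwoSidedIdeal A} {k N c : ℕ} {u : A} : u ∈ Uc e F Q k N c ↔
    ∀ n : G ℕ, (∀ i < k, c ≤ n i) → u * eta0 F e k N n ∈ Q := Iff.rfl

lemma Uc_step (he : IsW F e) {Q : TwoSidedIdeal A} {k N c : ℕ} {u : A}
    (hu : u ∈ Uc e F Q k N c) (v : ℕ) : u * e v ∈ Uc e F Q k N (c + 1) := by
  classical
  intro n hn
  obtain ⟨q, hq⟩ := ad_eta0 he k N v
  have h1 : u * e v * eta0 F e k N n = u * eta0 F e k N n * e v + u * ad e v (eta0 F e k N n) := by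
    unfold ad; noncomm_ring
  rw [h1, hq, mul_add]
  refine Q.add_mem (Q.mul_mem_right _ _ (hu n fun i hi => by have := hn i hi; omega))
    (Q.add_mem ?_ ?_)
  · rw [← act_left]
    exact mem_subsp.mp (act_region (subsp F Q) (k := k) (c := c) q
      (fun n hn => mem_subsp.mpr (hu n hn)) n fun i hi => by have := hn i hi; omega)
  · rw [Finset.mul_sum]
    apply mem_subsp (F := F).mp
    refine Submodule.sum_mem _ fun j hj => ?_
    rw [mul_smul_comm]
    apply Submodule.smul_mem
    split_ifs with h
    · rw [mul_zero]; exact Submodule.zero_mem _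
    · apply mem_subsp.mpr
      apply hu
      intro i hi
      by_cases hij : i = j
      · subst hij
        have h2 := nv_spec h
        have h3 := hn i hi
        have h4 : ∀ a : ℕ, (Lab.c a : ℤ) = a := fun a => rfl
        rw [h4, h4, h4] at h2
        omega
      · rw [nv_ne hij]
        have := hn i hi
        omega

lemma Uc_mul (he : IsW F e) {Q : TwoSidedIdeal A} {k N c : ℕ} {u : A}
    (hu : u ∈ Uc e F Q k N c) {x : A} {r : ℕ} (hx : x ∈ Fl F e r) :
    u * x ∈ Uc e F Q k N (c + r) := by
  have key : ∀ (w : List ℕ) (c : ℕ) (u : A), u ∈ Uc e F Q k N c →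
      u * wd e w ∈ Uc e F Q k N (c + w.length) := by
    intro w
    induction w with
    | nil => intro c u hu; rw [wd_nil, mul_one]; exact hu
    | cons v w ih =>
      intro c u hu
      rw [wd_cons, ← mul_assoc]
      have := ih _ _ (Uc_step he hu v)
      rw [List.length_cons]
      rwa [add_assoc, add_comm 1] at this
  have mono : ∀ {c c' : ℕ}, c ≤ c' → Uc e F Q k N c ≤ Uc e F Q k N c' :=
    fun h u hu n hn => hu n fun i hi => h.trans (hn i hi)
  unfold Fl at hx
  induction hx using Submodule.span_induction with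
  | mem y hy =>
    obtain ⟨w, hw, rfl⟩ := hy
    exact mono (by omega) (key w c u hu)
  | zero => rw [mul_zero]; exact Submodule.zero_mem _
  | add y z _ _ hy hz => rw [mul_add]; exact Submodule.add_mem _ hy hz
  | smul a y _ hy =>
    rw [mul_smul_comm]
    exact ((Uc e F Q k N (c + r)).restrictScalars F).smul_mem a hy

/-- Elements annihilating the basic function at infinity lie in the prime ideal. -/
lemma mem_of_infty (he : IsW F e) (hgen : ∀ x : A, ∃ k, x ∈ Fl F e k) {Q : TwoSidedIdeal A}
    (hQ : IsPrimeT Q) {k N : ℕ} (hV : Dl F ℕ (k + 1) ^ N ∈ aI e (k + 1) (subsp F Q))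
    (hη : ∀ M, ∃ n, eta0 F e k M n ∉ Q) {u : A} {c : ℕ}
    (hu : ∀ n : G ℕ, (∀ i < k, c ≤ n i) → u * eta0 F e k N n ∈ Q) : u ∈ Q := by
  classical
  have mono : Monotone (Uc e F Q k N) :=
    fun c c' h u hu n hn => hu n fun i hi => h.trans (hn i hi)
  obtain ⟨c0, hc0⟩ := chain_LL he hgen Q.asIdeal N k hV (Uc e F Q k N) mono
  have hstab : ∀ c u, u ∈ Uc e F Q k N c → u ∈ Uc e F Q k N c0 := by
    intro c u hu
    have h1 : (fun n => Submodule.Quotient.mk (u * eta0 F e k N n) : VV (ι := ℕ) Q.asIdeal) ∈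
        LL F e Q.asIdeal k N (Uc e F Q k N (max c c0)) :=
      Submodule.subset_span ⟨u, mono (le_max_left _ _) hu, rfl⟩
    rw [hc0 _ (le_max_right _ _)] at h1
    have h2 : ∀ f ∈ LL (ι := ℕ) F e Q.asIdeal k N (Uc e F Q k N c0), ∀ n : G ℕ,
        (∀ i < k, c0 ≤ n i) → f n = 0 := by
      intro f hf
      unfold LL at hf
      induction hf using Submodule.span_induction with
      | mem y hy =>
        obtain ⟨u', hu', rfl⟩ := hy
        intro n hn
        beta_reduce
        rw [Submodule.Quotient.mk_eq_zero, TwoSidedIdeal.mem_asIdeal]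
        exact hu' n hn
      | zero => intro n _; rfl
      | add y z _ _ hy hz => intro n hn; rw [Pi.add_apply, hy n hn, hz n hn, add_zero]
      | smul a y _ hy =>
        intro n hn
        rw [smul_VV]
        have := act_region (⊥ : Submodule F (A ⧸ Q.asIdeal)) (k := k) (c := c0) (a : K F ℕ)
          (f := y) (fun n hn => by rw [Submodule.mem_bot]; exact hy n hn) n hn
        rwa [Submodule.mem_bot] at this
    intro n hn
    have h3 := h2 _ h1 n hn
    beta_reduce at h3
    rwa [Submodule.Quotient.mk_eq_zero, TwoSidedIdeal.mem_asIdeal] at h3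
  by_contra huQ
  have h1 : ∀ n : G ℕ, (∀ i < k, c0 ≤ n i) → eta0 F e k N n ∈ Q := by
    intro n hn
    refine (hQ.elt fun x => ?_).resolve_left huQ
    obtain ⟨r, hr⟩ := hgen x
    exact hstab _ _ (Uc_mul he (c := c) hu hr) n hn
  set κ0 : G ℕ := fun i => if i < k then c0 else 0 with hκ0
  have h2 : Dl F ℕ k ^ N * AddMonoidAlgebra.single κ0 1 ∈ aI e k (subsp F Q) := by
    intro n
    rw [mul_comm, act_mul, act_single, one_smul]
    apply mem_subsp.mpr
    apply h1
    intro i hi
    rw [Pi.add_apply, hκ0]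
    simp [hi]
  obtain ⟨M, hM⟩ := remove he (d := k) (I := subsp F Q) (fun m x hx => mem_subsp.mpr
    (Q.sub_mem (Q.mul_mem_left _ _ (mem_subsp.mp hx)) (Q.mul_mem_right _ _ (mem_subsp.mp hx))))
    (k * c0) (AddMonoidAlgebra.single κ0 1) N (by
      intro h
      have h3 := congrArg (fun p : K F ℕ => p.coeff κ0) h
      simp at h3) (by
      intro κ hκ
      have h3 : κ = κ0 := by
        by_contra h4
        apply hκ
        rw [AddMonoidAlgebra.coeff_single, Finsupp.single_eq_of_ne h4]
      subst h3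
      have h4 : ∀ a : ℕ, (Lab.c a : ℤ) = a := fun a => rfl
      refine ⟨fun i => by rw [h4]; exact Int.natCast_nonneg _, fun i hi => ?_, ?_⟩
      · rw [hκ0]
        simp [hi]
      · have h5 : ∀ i ∈ Finset.range k, (Lab.c (κ0 i) : ℤ) = c0 := by
          intro i hi
          rw [h4, hκ0]
          simp [Finset.mem_range.mp hi]
        rw [Finset.sum_congr rfl h5, Finset.sum_const, Finset.card_range]
        simp) h2
  obtain ⟨n, hn⟩ := hη M
  exact hn (mem_subsp.mp (hM n))

end pos

end Pool.Agent.R693.W
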