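import Pool.Agent.R693.R.Two

/-!
Key lemma: vanishing at infinity implies vanishing.
-/

set_option autoImplicit false
set_option linter.unusedSectionVars false

namespace Pool.Agent.R693.W

section general
variable {F : Type*} [Field F] [CharZero F] {ι : Type} [AddCommMonoid ι] [Lab ι]
variable {A : Type*} [Ring A] [Algebra F A] {e : ι → A}

/-- Dependence on the first `d` labels only. -/
def Dep {M : Type*} (d : ℕ) (h : G ι → M) : Prop := ∀ n n' : G ι, (∀ i < d, n i = n' i) → h n = h n'

lemma Dep.act {M : Type*} [AddCommGroup M] [Module F M] {d : ℕ} {h : G ι → M} (hh : Dep d h)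
    (g : K F ι) : Dep d (act M g h) := by
  intro n n' hn
  apply act_shift_eq
  intro κ
  apply hh
  intro i hi
  rw [Pi.add_apply, Pi.add_apply, hn i hi]

lemma Dep_om (d : ℕ) : Dep d (om e d) := by
  intro n n' hn
  unfold om
  apply omy_congr
  intro i hi
  rw [hn i hi]

lemma Dep_eta0 (d N : ℕ) : Dep d (eta0 F e d N) := (Dep_om d).act _

/-- The values depend only on the values at the labels with the same coordinates outside `S`. -/
lemma act_congr_lab {S : Set ℕ} {f : K F ι} (hf : f ∈ Algebra.adjoin F (X '' S : Set (K F ι)))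
    {g g' : G ι → A} : ∀ n : G ι, (∀ n' : G ι, (∀ a, a ∉ S → n' a = n a) → g n' = g' n') →
      act A f g n = act A f g' n := by
  induction hf using Algebra.adjoin_induction generalizing g g' with
  | mem f hf =>
    obtain ⟨i, hi, rfl⟩ := hf
    intro n hn
    rw [act_X, act_X]
    apply hn
    intro a ha
    rw [Pi.add_apply, dl_ne, add_zero]
    rintro rfl
    exact ha hi
  | algebraMap r =>
    intro n hn
    rw [AlgHom.commutes, Module.algebraMap_end_apply, Module.algebraMap_end_apply, Pi.smul_apply,
      Pi.smul_apply, hn n (fun _ _ => rfl)]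
  | add p q _ _ hp hq =>
    intro n hn
    rw [map_add, LinearMap.add_apply, LinearMap.add_apply, Pi.add_apply, Pi.add_apply, hp n hn,
      hq n hn]
  | mul p q _ _ hp hq =>
    intro n hn
    rw [act_mul, act_mul]
    apply hp
    intro n' hn'
    apply hq
    intro n'' hn''
    apply hn
    intro a ha
    rw [hn'' a ha, hn' a ha]

lemma X_mem_adj {S : Set ℕ} {i : ℕ} (hi : i ∈ S) :
    (X i : K F ι) ∈ Algebra.adjoin F (X '' S : Set (K F ι)) :=
  Algebra.subset_adjoin ⟨i, hi, rfl⟩

lemma Dl_mem_adj {S : Set ℕ} {k : ℕ} (hS : ∀ i < k, i ∈ S) :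
    Dl F ι k ∈ Algebra.adjoin F (X '' S : Set (K F ι)) := by
  unfold Dl
  apply Subalgebra.prod_mem
  intro p hp
  unfold offd at hp
  simp only [Finset.mem_filter, Finset.mem_product, Finset.mem_range] at hp
  exact Subalgebra.sub_mem _ (X_mem_adj (hS _ hp.1.1)) (X_mem_adj (hS _ hp.1.2))

/-- Annihilators of functions modulo an ideal. -/
noncomputable def annI (P : Ideal A) (h : G ι → A) : Ideal (K F ι) where
  carrier := {g | ∀ n, act A g h n ∈ P}
  add_mem' := by
    intro g g' hg hg' n
    rw [map_add, LinearMap.add_apply, Pi.add_apply]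
    exact P.add_mem (hg n) (hg' n)
  zero_mem' := by
    intro n
    rw [map_zero]
    exact P.zero_mem
  smul_mem' := by
    intro p g hg n
    rw [smul_eq_mul, act_mul]
    exact act_mem (P.restrictScalars F) p _ hg n

lemma mem_annI {P : Ideal A} {h : G ι → A} {g : K F ι} :
    g ∈ annI P h ↔ ∀ n, act A g h n ∈ P := Iff.rfl

/-- The labels above `k`. -/
def tl (k : ℕ) (l : ℕ) (n : G ι) : List ι := (List.range l).reverse.map fun i => n (k + i)

lemma tl_succ (k l : ℕ) (n : G ι) : tl k (l + 1) n = n (k + l) :: tl k l n := by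
  unfold tl
  rw [List.range_succ, List.reverse_append, List.reverse_cons, List.reverse_nil, List.nil_append,
    List.singleton_append, List.map_cons]

lemma tl_length (k l : ℕ) (n : G ι) : (tl k l n).length = l := by
  unfold tl
  rw [List.length_map, List.length_reverse, List.length_range]

lemma tl_congr {k l : ℕ} {n n' : G ι} (h : ∀ i < l, n (k + i) = n' (k + i)) :
    tl k l n = tl k l n' := by
  unfold tl
  apply List.map_congr_left
  intro i hi
  rw [List.mem_reverse, List.mem_range] at hi
  exact h i hi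

lemma wd_tl (k l : ℕ) (n : G ι) : wd e (tl k l n) = om e l (fun i => n (k + i)) := by
  unfold om
  induction l with
  | zero => rfl
  | succ l ih => rw [tl_succ, wd_cons, ih, omy]

/-- Relabelling by a shift of the labels. -/
def RelS (F : Type*) [Field F] {ι : Type} [AddCommMonoid ι] (A : Type*) [Ring A]
    [Algebra F A] (k : ℕ) (f g : K F ι) : Prop :=
  ∀ (h : G ι → A) (n : G ι), act A f (fun n => h (fun i => n (k + i))) n =
    act A g h (fun i => n (k + i))

lemma RelS.mul {k : ℕ} {f g f' g' : K F ι} (h1 : RelS F A k f g) (h2 : RelS F A k f' g') :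
    RelS F A k (f * f') (g * g') := by
  intro h n
  rw [act_mul, act_mul]
  have h3 : act A f' (fun n => h (fun i => n (k + i))) =
      fun n => act A g' h (fun i => n (k + i)) := by
    funext m
    exact h2 h m
  rw [h3]
  exact h1 (act A g' h) n

lemma RelS.one {k : ℕ} : RelS F A k (1 : K F ι) 1 := by
  intro h n
  rw [act_one, act_one]

lemma RelS.pow {k : ℕ} {f g : K F ι} (h1 : RelS F A k f g) (r : ℕ) :
    RelS F A k (f ^ r) (g ^ r) := by
  induction r with
  | zero => rw [pow_zero, pow_zero]; exact RelS.one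
  | succ r ih => rw [pow_succ, pow_succ]; exact ih.mul h1

lemma RelS.X (k i : ℕ) : RelS F A k (W.X (k + i) : K F ι) (W.X i) := by
  intro h n
  rw [act_X, act_X]
  congr 1
  funext j
  rw [Pi.add_apply, Pi.add_apply, dl_apply, dl_apply]
  congr 1
  by_cases h : j = i
  · rw [if_pos h, if_pos (by omega)]
  · rw [if_neg h, if_neg (by omega)]

lemma RelS.sub {k : ℕ} {f g f' g' : K F ι} (h1 : RelS F A k f g) (h2 : RelS F A k f' g') :
    RelS F A k (f - f') (g - g') := by
  intro h n
  rw [map_sub, map_sub, LinearMap.sub_apply, LinearMap.sub_apply, Pi.sub_apply, Pi.sub_apply,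
    h1, h2]

lemma RelS.prod {k : ℕ} {κ : Type*} (s : Finset κ) (f g : κ → K F ι)
    (h : ∀ i ∈ s, RelS F A k (f i) (g i)) : RelS F A k (∏ i ∈ s, f i) (∏ i ∈ s, g i) := by
  classical
  induction s using Finset.induction_on with
  | empty => rw [Finset.prod_empty, Finset.prod_empty]; exact RelS.one
  | insert a s ha ih =>
    rw [Finset.prod_insert ha, Finset.prod_insert ha]
    exact (h a (Finset.mem_insert_self a s)).mul (ih fun i hi => h i (Finset.mem_insert_of_mem hi))

variable (F ι) in
/-- The discriminant of the upper labels. -/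
noncomputable def Dl' (k : ℕ) : K F ι := ∏ p ∈ offd k, (X (k + p.1) - X (k + p.2))

lemma RelS_Dl' (k : ℕ) : RelS F A k (Dl' F ι k) (Dl F ι k) := by
  unfold Dl' Dl
  apply RelS.prod
  intro p _
  exact (RelS.X k p.1).sub (RelS.X k p.2)

end general

section key
variable {F : Type*} [Field F] [CharZero F] {A : Type*} [Ring A] [Algebra F A] {e : ℤ → A}

/-- The function of `k + l` labels. -/
noncomputable def Wf (F : Type*) [Field F] {A : Type*} [Ring A] [Algebra F A] (e : ℤ → A)
    (k N : ℕ) (u : A) (l : ℕ) (n : G ℤ) : A := wd e (tl k l n) * (u * eta0 F e k N n)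

lemma Wf_succ (k N : ℕ) (u : A) (l : ℕ) (n : G ℤ) :
    Wf F e k N u (l + 1) n = e (n (k + l)) * Wf F e k N u l n := by
  unfold Wf
  rw [tl_succ, wd_cons, mul_assoc]

lemma Wf_split (k N : ℕ) (u : A) (l' : ℕ) (l : ℕ) (hl : l' + 1 ≤ l) : ∃ U : G ℤ → A,
    (∀ n n' : G ℤ, (∀ a, a ≠ k + l' → k ≤ a → n a = n' a) → U n = U n') ∧
    ∀ n, Wf F e k N u l n = U n * (e (n (k + l')) * Wf F e k N u l' n) := by
  induction l, hl using Nat.le_induction with
  | base =>
    refine ⟨fun _ => 1, fun _ _ _ => rfl, fun n => ?_⟩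
    rw [Wf_succ, one_mul]
  | succ l hl ih =>
    obtain ⟨U, hU, hU'⟩ := ih
    refine ⟨fun n => e (n (k + l)) * U n, fun n n' hn => ?_, fun n => ?_⟩
    · beta_reduce
      rw [hn (k + l) (by omega) (by omega), hU n n' hn]
    · rw [Wf_succ, hU', mul_assoc]

lemma chk_mem_adj (k j : ℕ) : chk F k j ∈ Algebra.adjoin F
    (X '' ({a | a < k ∨ a = j}) : Set (K F ℤ)) := by
  unfold chk
  apply Subalgebra.prod_mem
  intro i hi
  exact Subalgebra.sub_mem _ (X_mem_adj (Or.inr rfl)) (X_mem_adj (Or.inl (Finset.mem_range.mp hi)))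

lemma Wf_rec (he : IsW F e) {P : Ideal A} {k N : ℕ}
    (hV : Dl F ℤ (k + 1) ^ N ∈ aI e (k + 1) (P.restrictScalars F)) {u : A} {r : ℕ}
    (hu : u ∈ Fl F e r) {l' : ℕ} (hl' : l' < k) :
    chk F k (k + l') ^ (2 * N + k + r) ∈ annI P (Wf F e k N u k) := by
  intro n
  obtain ⟨U, hU, hU'⟩ := Wf_split (F := F) (e := e) k N u l' k hl'
  have h1 : act A (chk F k (k + l') ^ (2 * N + k + r)) (Wf F e k N u k) n =
      act A (chk F k (k + l') ^ (2 * N + k + r))
        (fun n' => U n * (e (n' (k + l')) * (wd e (tl k l' n) * (u * eta0 F e k N n')))) n := by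
    apply act_congr_lab (Subalgebra.pow_mem _ (chk_mem_adj k (k + l')) _)
    intro n' hn'
    rw [hU']
    have h2 : U n' = U n := by
      apply hU
      intro a ha hka
      apply hn'
      simp only [Set.mem_ofPred_eq]
      omega
    have h3 : tl k l' n' = tl k l' n := by
      apply tl_congr
      intro i hi
      apply hn'
      simp only [Set.mem_ofPred_eq]
      omega
    rw [h2]
    unfold Wf
    rw [h3]
  rw [h1, act_left]
  apply P.mul_mem_left
  apply act_pow_mem_mono _ (rec_elt he hV (by omega) hu (tl k l' n))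
  rw [tl_length]
  omega

/-- Regions of labels. -/
def Reg (k : ℕ) (c : ℤ) (T : Finset ℕ) (n : G ℤ) : Prop := ∀ i < k, i ∉ T → c ≤ n i

variable (F) in
/-- The isolating element. -/
noncomputable def eS (k r : ℕ) (σ : ℕ → ℕ) : K F ℤ :=
  ∏ j ∈ Finset.range k, ∏ i ∈ (Finset.range k).erase (σ j), (X (k + j) - X i) ^ r

lemma eS_dvd {k r : ℕ} {σ : ℕ → ℕ} {j : ℕ} (hj : j < k) (hσ : σ j < k) :
    chk F k (k + j) ^ r ∣ (X (k + j) - X (σ j)) ^ r * eS F k r σ := by
  have h1 : chk F k (k + j) ^ r = (X (k + j) - X (σ j)) ^ r *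
      ∏ i ∈ (Finset.range k).erase (σ j), (X (k + j) - X i : K F ℤ) ^ r := by
    unfold chk
    rw [← Finset.mul_prod_erase _ _ (Finset.mem_range.mpr hσ), mul_pow, Finset.prod_pow]
  rw [h1]
  apply mul_dvd_mul_left
  unfold eS
  exact Finset.dvd_prod_of_mem (fun j => ∏ i ∈ (Finset.range k).erase (σ j),
    (X (k + j) - X i : K F ℤ) ^ r) (Finset.mem_range.mpr hj)

lemma eS_mem (he : IsW F e) {P : Ideal A} {k N : ℕ}
    (hV : Dl F ℤ (k + 1) ^ N ∈ aI e (k + 1) (P.restrictScalars F)) {u : A} {r : ℕ}
    (hu : u ∈ Fl F e r) {c : ℤ} (huc : ∀ n : G ℤ, (∀ i < k, c ≤ n i) → u * eta0 F e k N n ∈ P)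
    {σ : ℕ → ℕ} (hσ : ∀ j < k, σ j < k) (hinj : ∀ i < k, ∀ j < k, σ i = σ j → i = j) :
    eS F k (2 * N + k + r) σ ∈ annI P (Wf F e k N u k) := by
  classical
  set R := 2 * N + k + r with hR
  set h : G ℤ → A := act A (eS F k R σ) (Wf F e k N u k) with hh
  have hrec : ∀ j < k, ∀ n, act A ((X (k + j) - X (σ j)) ^ R : K F ℤ) h n ∈ P := by
    intro j hj n
    rw [hh, ← act_mul]
    have h1 : (X (k + j) - X (σ j)) ^ R * eS F k R σ ∈ annI P (Wf F e k N u k) :=
      Ideal.mem_of_dvd _ (eS_dvd hj (hσ j hj)) (Wf_rec he hV hu hj)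
    exact h1 n
  have hone : (Lab.one : ℤ) = 1 := rfl
  have key : ∀ t : Finset ℕ, t ⊆ Finset.range k → ∀ n : G ℤ, Reg k c (t.image σ) n → h n ∈ P := by
    intro t
    induction t using Finset.induction_on with
    | empty =>
      intro _
      let PP : Submodule F (G ℤ → A) :=
        { carrier := {g | ∀ n : G ℤ, Reg k c ∅ n → g n ∈ P}
          add_mem' := fun ha hb n hn => P.add_mem (ha n hn) (hb n hn)
          zero_mem' := fun n _ => P.zero_mem
          smul_mem' := fun c g hg n hn => (P.restrictScalars F).smul_mem c (hg n hn) }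
      have h1 : h ∈ PP := by
        apply adjoin_closed PP (S := X '' Set.univ)
        · rintro _ ⟨i, _, rfl⟩ g hg n hn
          rw [act_X]
          apply hg
          intro a ha ha'
          have := hn a ha ha'
          rw [Pi.add_apply, dl_apply]
          split_ifs <;> omega
        · unfold eS
          apply Subalgebra.prod_mem
          intro j _
          apply Subalgebra.prod_mem
          intro i _
          exact Subalgebra.pow_mem _ (Subalgebra.sub_mem _ (X_mem_adj (Set.mem_univ _))
            (X_mem_adj (Set.mem_univ _))) _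
        · intro n hn
          exact P.mul_mem_left _ (huc n fun i hi => hn i hi (Finset.notMem_empty i))
      rw [Finset.image_empty]
      exact h1
    | insert j t hjt ih =>
      intro ht
      have htk := (Finset.subset_insert j t).trans ht
      have hjk := Finset.mem_range.mp (ht (Finset.mem_insert_self j t))
      have ih' := ih htk
      set b := σ j with hb
      have hbk : b < k := hσ j hjk
      let PP : ℤ → Submodule F (G ℤ → A) := fun m =>
        { carrier := {g | ∀ n : G ℤ, m ≤ n b → Reg k c ((insert j t).image σ) n → g n ∈ P}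
          add_mem' := fun ha hb n hn hn' => P.add_mem (ha n hn hn') (hb n hn hn')
          zero_mem' := fun n _ _ => P.zero_mem
          smul_mem' := fun c g hg n hn hn' => (P.restrictScalars F).smul_mem c (hg n hn hn') }
      have hPP : ∀ m g, g ∈ PP m ↔
        ∀ n : G ℤ, m ≤ n b → Reg k c ((insert j t).image σ) n → g n ∈ P := fun m g => Iff.rfl
      have h1 : ∀ m, m ≤ c → h ∈ PP m := by
        apply descend PP (S := {X b, Xi F ℤ (k + j)}) (b := b) (p := (X (k + j) - X b) ^ R)
        · apply UF.pow (Algebra.subset_adjoin (Set.mem_insert _ _))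
          apply UF_dn
          exact Algebra.subset_adjoin (Set.mem_insert_of_mem _ rfl)
        · intro m f hf g hg
          rw [hPP] at hg ⊢
          intro n hn hn'
          rcases hf with rfl | hf
          · rw [act_X]
            apply hg
            · rw [Pi.add_apply, dl_self]
              omega
            · intro a ha ha'
              have := hn' a ha ha'
              rw [Pi.add_apply, dl_apply]
              split_ifs <;> omega
          · rw [Set.mem_singleton_iff.mp hf, act_Xi]
            apply hg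
            · rw [Pi.add_apply, Pi.single_eq_of_ne (by omega), add_zero]
              exact hn
            · intro a ha ha'
              rw [Pi.add_apply, Pi.single_eq_of_ne (by omega), add_zero]
              exact hn' a ha ha'
        · intro m g hg
          rw [hPP] at hg ⊢
          intro n hn hn'
          rw [act_X]
          apply hg
          · rw [Pi.add_apply, dl_self]
            omega
          · intro a ha ha'
            have := hn' a ha ha'
            rw [Pi.add_apply, dl_apply]
            split_ifs <;> omega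
        · intro m
          rw [hPP]
          intro n _ _
          exact hrec j hjk n
        · rw [hPP]
          intro n hn hn'
          apply ih'
          intro i hi hit
          by_cases hib : i = b
          · rw [hib]; exact hn
          · apply hn' i hi
            rw [Finset.image_insert, Finset.mem_insert]
            push Not
            exact ⟨hib, hit⟩
      intro n hn
      exact (hPP _ _).mp (h1 (min (n b) c) (min_le_right _ _)) n (min_le_left _ _) hn
  intro n
  apply key (Finset.range k) (Finset.Subset.refl _)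
  intro i hi hi'
  exfalso
  apply hi'
  have h1 : (Finset.range k).image σ = Finset.range k := by
    apply Finset.eq_of_subset_of_card_le
    · intro x hx
      obtain ⟨y, hy, rfl⟩ := Finset.mem_image.mp hx
      exact Finset.mem_range.mpr (hσ y (Finset.mem_range.mp hy))
    · rw [Finset.card_image_of_injOn]
      intro x hx y hy hxy
      exact hinj x (by simpa using hx) y (by simpa using hy) hxy
  rw [h1]
  exact Finset.mem_range.mpr hi

/-- A power of the discriminants annihilates. -/
lemma disc_mem (he : IsW F e) {P : Ideal A} {k N : ℕ}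
    (hV : Dl F ℤ (k + 1) ^ N ∈ aI e (k + 1) (P.restrictScalars F)) {u : A} {r : ℕ}
    (hu : u ∈ Fl F e r) {c : ℤ} (huc : ∀ n : G ℤ, (∀ i < k, c ≤ n i) → u * eta0 F e k N n ∈ P) :
    ∃ B, (Dl F ℤ k * Dl' F ℤ k) ^ B ∈ annI P (Wf F e k N u k) := by
  change Dl F ℤ k * Dl' F ℤ k ∈ (annI P (Wf F e k N u k)).radical
  rw [Ideal.radical_eq_sInf, Submodule.mem_sInf]
  rintro p ⟨hp, hprime⟩
  set R := 2 * N + k + r with hR
  have h1 : ∀ j : ℕ, ∃ i : ℕ, j < k → i < k ∧ (X (k + j) - X i : K F ℤ) ∈ p := by
    intro j
    by_cases hj : j < k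
    · have h2 := hprime.mem_of_pow_mem _ (hp (Wf_rec he hV hu hj))
      unfold chk at h2
      rw [hprime.prod_mem_iff] at h2
      obtain ⟨i, hi, hi'⟩ := h2
      exact ⟨i, fun _ => ⟨Finset.mem_range.mp hi, hi'⟩⟩
    · exact ⟨0, fun h => absurd h hj⟩
  choose σ hσ using h1
  by_cases hinj : ∀ i < k, ∀ j < k, σ i = σ j → i = j
  · have h2 := hp (eS_mem he hV hu huc (fun j hj => (hσ j hj).1) hinj)
    unfold eS at h2
    rw [hprime.prod_mem_iff] at h2
    obtain ⟨j, hj, h3⟩ := h2
    rw [hprime.prod_mem_iff] at h3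
    obtain ⟨i, hi, h4⟩ := h3
    have h5 := hprime.mem_of_pow_mem _ h4
    have hj' := Finset.mem_range.mp hj
    have hi' := Finset.mem_erase.mp hi
    have h6 : (X i - X (σ j) : K F ℤ) ∈ p := by
      have := p.sub_mem (hσ j hj').2 h5
      rwa [sub_sub_sub_cancel_left] at this
    apply Ideal.mul_mem_right
    unfold Dl
    rw [hprime.prod_mem_iff]
    refine ⟨(i, σ j), ?_, h6⟩
    unfold offd
    simp only [Finset.mem_filter, Finset.mem_product, Finset.mem_range]
    exact ⟨⟨Finset.mem_range.mp hi'.2, (hσ j hj').1⟩, hi'.1⟩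
  · push Not at hinj
    obtain ⟨i, hi, j, hj, hij, hne⟩ := hinj
    have h6 : (X (k + i) - X (k + j) : K F ℤ) ∈ p := by
      have h7 := (hσ j hj).2
      rw [← hij] at h7
      have := p.sub_mem (hσ i hi).2 h7
      rwa [sub_sub_sub_cancel_right] at this
    apply Ideal.mul_mem_left
    unfold Dl'
    rw [hprime.prod_mem_iff]
    refine ⟨(i, j), ?_, h6⟩
    unfold offd
    simp only [Finset.mem_filter, Finset.mem_product, Finset.mem_range]
    exact ⟨⟨hi, hj⟩, hne⟩

/-- **Key lemma.** -/
lemma key_lemma (he : IsW F e) (hgen : ∀ x : A, ∃ k, x ∈ Fl F e k) {P : TwoSidedIdeal A}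
    (hP : IsPrimeT P) {k N : ℕ} (hV : Dl F ℤ (k + 1) ^ N ∈ aI e (k + 1) (subsp F P))
    (hη : ∀ M, ∃ n, eta0 F e k M n ∉ P) {u : A} {c : ℤ}
    (huc : ∀ n : G ℤ, (∀ i < k, c ≤ n i) → u * eta0 F e k N n ∈ P) : u ∈ P := by
  obtain ⟨r, hr⟩ := hgen u
  obtain ⟨B, hB⟩ := disc_mem he (P := P.asIdeal) hV hr (c := c)
    (fun n hn => TwoSidedIdeal.mem_asIdeal.mpr (huc n hn))
  apply prime_of_two he hgen hP (d := k) (N := B) (M := B + N) _ (hη B) (hη (B + N))
  intro a b
  set n : G ℤ := fun i => if i < k then b i else a (i - k) with hn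
  have h1 := hB n
  rw [TwoSidedIdeal.mem_asIdeal, mul_comm, mul_pow, act_mul] at h1
  have h2 : act A (Dl F ℤ k ^ B) (Wf F e k N u k) =
      fun n => om e k (fun i => n (k + i)) * (u * eta0 F e k (B + N) n) := by
    funext m
    have h3 : act A (Dl F ℤ k ^ B) (Wf F e k N u k) m =
        act A (Dl F ℤ k ^ B) (fun m' => om e k (fun i => m (k + i)) * u * eta0 F e k N m') m := by
      apply act_congr_lab (Subalgebra.pow_mem _ (Dl_mem_adj (S := {a | a < k}) fun i hi => hi) _)
      intro m' hm'
      unfold Wf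
      rw [wd_tl, mul_assoc]
      congr 2
      funext i
      apply hm'
      simp
    rw [h3, act_left, mul_assoc]
    congr 2
    unfold eta0
    rw [← act_mul, ← pow_add]
  have h4 : act A (Dl' F ℤ k ^ B) (fun n => om e k (fun i => n (k + i)) *
      (u * eta0 F e k (B + N) n)) n =
      eta0 F e k B (fun i => n (k + i)) * (u * eta0 F e k (B + N) n) := by
    have hmem : Dl' F ℤ k ^ B ∈ Algebra.adjoin F (X '' {a | k ≤ a} : Set (K F ℤ)) := by
      apply Subalgebra.pow_mem
      unfold Dl'
      apply Subalgebra.prod_mem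
      intro p _
      exact Subalgebra.sub_mem _ (X_mem_adj (by simp)) (X_mem_adj (by simp))
    have h5 : act A (Dl' F ℤ k ^ B) (fun n => om e k (fun i => n (k + i)) *
        (u * eta0 F e k (B + N) n)) n = act A (Dl' F ℤ k ^ B)
          (fun n' => om e k (fun i => n' (k + i)) * (u * eta0 F e k (B + N) n)) n := by
      apply act_congr_lab hmem
      intro n' hn'
      congr 2
      apply Dep_eta0
      intro i hi
      apply hn'
      simpa using hi
    rw [h5, act_right]
    congr 1
    exact (RelS_Dl' (F := F) (A := A) k).pow B (om e k) n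
  rw [h2, h4] at h1
  have h6 : (fun i => n (k + i)) = a := by
    funext i
    rw [hn]
    simp
  have h7 : eta0 F e k (B + N) n = eta0 F e k (B + N) b := by
    apply Dep_eta0
    intro i hi
    rw [hn]
    simp [hi]
  rw [h6, h7, ← mul_assoc] at h1
  exact h1

end key

end Pool.Agent.R693.W
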