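import Pool.Agent.R693.W.Gen

/-!
Recurrences modulo an ideal for algebras generated by elements satisfying the Witt relations.
-/

set_option autoImplicit false
set_option linter.unusedSectionVars false

namespace Pool.Agent.R693.W

variable {F : Type*} [Field F] [CharZero F] {ι : Type} [AddCommMonoid ι] [Lab ι]
variable {A : Type*} [Ring A] [Algebra F A] {e : ι → A}

lemma act_shift_eq {M : Type*} [AddCommGroup M] [Module F M] {g g' : G ι → M} {n n' : G ι}
    (h : ∀ κ, g (n + κ) = g' (n' + κ)) (f : K F ι) : act M f g n = act M f g' n' := by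
  induction f using AddMonoidAlgebra.induction_linear with
  | zero => simp
  | add p q hp hq => rw [map_add, LinearMap.add_apply, LinearMap.add_apply, Pi.add_apply,
      Pi.add_apply, hp, hq]
  | single k r => rw [act_single, act_single, h]

lemma act_left (f : K F ι) (a : A) (h : G ι → A) (n : G ι) :
    act A f (fun n => a * h n) n = a * act A f h n :=
  act_map (LinearMap.mulLeft F a) f h n

lemma act_right (f : K F ι) (a : A) (h : G ι → A) (n : G ι) :
    act A f (fun n => h n * a) n = act A f h n * a :=
  act_map (LinearMap.mulRight F a) f h n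

lemma dl_add_low {j : ℕ} {κ : G ι} (h : κ j ≠ 0) : dl j + low j κ = κ := by
  funext i
  rw [Pi.add_apply, dl_apply]
  unfold low
  by_cases hi : i = j
  · subst hi
    rw [if_pos rfl, Function.update_self]
    apply Lab.inj
    rw [map_add, Lab.c_one, c_pred h]
    ring
  · rw [if_neg hi, Function.update_of_ne hi, zero_add]

/-- Multiplication by a coordinate. -/
lemma act_coord (f : K F ι) (j : ℕ) (h : G ι → A) (n : G ι) :
    act A f (fun n => ((Lab.c (n j) : ℤ) : F) • h n) n =
      ((Lab.c (n j) : ℤ) : F) • act A f h n + act A (X j * pd F ι j f) h n := by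
  induction f using AddMonoidAlgebra.induction_linear with
  | zero => simp
  | add p q hp hq =>
    rw [map_add, LinearMap.add_apply, LinearMap.add_apply, Pi.add_apply,
      Pi.add_apply, hp, hq, map_add, mul_add, map_add, LinearMap.add_apply, Pi.add_apply, smul_add]
    abel
  | single κ r =>
    rw [act_single, act_single, pd_single]
    unfold X
    rw [AddMonoidAlgebra.single_mul_single, one_mul, act_single]
    by_cases hκ : κ j = 0
    · rw [Pi.add_apply, hκ, add_zero, map_zero, Int.cast_zero, mul_zero, zero_smul, add_zero,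
        smul_comm]
    · rw [dl_add_low hκ, Pi.add_apply, map_add, Int.cast_add]
      module

/-- The product of the differences with the labels below `k`. -/
noncomputable def chk (F : Type*) [Field F] {ι : Type} [AddCommMonoid ι] [Lab ι] (k j : ℕ) : K F ι :=
  ∏ i ∈ Finset.range k, (X j - X i)

lemma rec_step (he : IsW F e) {P : Ideal A} {f : K F ι} {j : ℕ} {r : ℕ} {h : G ι → A}
    (hInd : Ind h j) (hr : ∀ n, act A (f ^ r) (fun n => e (n j) * h n) n ∈ P) (v : ι)
    (n : G ι) : act A (f ^ (r + 1)) (fun n => e (n j) * (e v * h n)) n ∈ P := by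
  set P' : Submodule F A := P.restrictScalars F with hP'
  set y : G ι → A := fun n => e (n j) * h n with hy
  set Y : G ι → A := fun n => ext e (Lab.c v + Lab.c (n j) - 1) * h n with hY
  have h0 : (fun n : G ι => e (n j) * (e v * h n)) = (fun n => e v * y n) +
      (((Lab.c v : ℤ) : F) • Y - fun n => ((Lab.c (n j) : ℤ) : F) • Y n) := by
    funext m
    have h1 : e (m j) * e v = e v * e (m j) + ad e (m j) (e v) := by unfold ad; abel
    rw [← mul_assoc, h1, ad_e he, add_mul, mul_assoc, smul_mul_assoc]
    simp only [Pi.add_apply, Pi.sub_apply, Pi.smul_apply, hy, hY]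
    rw [← sub_smul, Int.cast_sub]
  have hpow : ∀ n, act A (f ^ (r + 1)) y n ∈ P' := by
    intro n
    rw [pow_succ', act_mul]
    exact act_mem P' _ _ hr n
  have hXY : act A (X j : K F ι) Y = act A (AddMonoidAlgebra.single (Pi.single j v) 1 : K F ι) y := by
    funext m
    rw [act_X, act_single, one_smul]
    simp only [hY, hy]
    have h1 : (m + dl j : G ι) j = m j + Lab.one := by rw [Pi.add_apply, dl_self]
    have h2 : (m + Pi.single j v : G ι) j = m j + v := by rw [Pi.add_apply, Pi.single_eq_same]
    have h3 : Lab.c v + Lab.c (m j + Lab.one) - 1 = Lab.c (m j + v) := by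
      rw [map_add, map_add, Lab.c_one]; ring
    rw [h1, h2, h3, ext_c]
    congr 1
    apply hInd
    intro b hb
    rw [Pi.add_apply, Pi.add_apply, dl_ne (Ne.symm hb), Pi.single_eq_of_ne hb]
  have hXYr : ∀ m, act A (f ^ r * X j) Y m ∈ P' := by
    intro m
    rw [act_mul, hXY, act_comm]
    exact act_mem P' _ _ hr m
  rw [h0, map_add, map_sub, map_smul, Pi.add_apply, Pi.sub_apply, Pi.smul_apply, act_left, act_coord]
  refine P.add_mem (P.mul_mem_left _ (hpow n)) ?_
  rw [sub_add_eq_sub_sub, ← sub_smul]
  refine P'.sub_mem ?_ ?_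
  · by_cases hv : v = n j
    · rw [hv, sub_self, zero_smul]
      exact P'.zero_mem
    · apply P'.smul_mem
      obtain ⟨i, hi⟩ := Lab.clos v (n j) hv
      have h1 : act A (f ^ (r + 1)) Y n = act A (f ^ (r + 1)) y (Function.update n j i) := by
        apply act_shift_eq
        intro κ
        simp only [hY, hy]
        rw [Pi.add_apply, Pi.add_apply, Function.update_self]
        have h2 : Lab.c v + Lab.c (n j + κ j) - 1 = Lab.c (i + κ j) := by
          rw [map_add, map_add, hi]; ring
        rw [h2, ext_c]
        congr 1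
        apply hInd
        intro b hb
        rw [Pi.add_apply, Pi.add_apply, Function.update_of_ne hb]
      rw [h1]
      exact hpow _
  · have h1 : X j * pd F ι j (f ^ (r + 1)) = ((r + 1 : ℕ) • pd F ι j f) * (f ^ r * X j) := by
      rw [Derivation.leibniz_pow, Nat.add_sub_cancel, smul_eq_mul, nsmul_eq_mul, nsmul_eq_mul]
      ring
    rw [h1, act_mul]
    exact act_mem P' _ _ hXYr n

lemma chk_mem_Rd_X (k : ℕ) : ∃ q : K F ι, Dl F ι (k + 1) * q = chk F k k ^ 2 * Dl F ι k := by
  obtain ⟨q, hq⟩ := Dl_succ_dvd (F := F) (ι := ι) k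
  refine ⟨q, ?_⟩
  rw [← hq]
  unfold chk
  rw [Fin.prod_univ_eq_prod_range (fun i => (X k : K F ι) - X i) k]

lemma Ind_om' (d : ℕ) {j : ℕ} (hj : d ≤ j) : Ind (om e d) j := by
  intro n n' hn
  unfold om
  apply omy_congr
  intro i hi
  rw [hn i (by omega)]

lemma Ind_eta0' (d N : ℕ) {j : ℕ} (hj : d ≤ j) : Ind (eta0 F e d N) j := Ind_act (Ind_om' d hj) _

lemma Ind_mul {h g : G ι → A} {j : ℕ} (h1 : Ind h j) (h2 : Ind g j) : Ind (fun n => h n * g n) j :=
  fun n n' hn => by beta_reduce; rw [h1 n n' hn, h2 n n' hn]

lemma Ind_const (a : A) (j : ℕ) : Ind (fun _ : G ι => a) j := fun _ _ _ => rfl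

lemma rec_base_k {P : Ideal A} {k N : ℕ}
    (hV : Dl F ι (k + 1) ^ N ∈ aI e (k + 1) (P.restrictScalars F)) (n : G ι) :
    act A (chk F k k ^ (2 * N)) (fun n => e (n k) * eta0 F e k N n) n ∈ P := by
  obtain ⟨q, hq⟩ := chk_mem_Rd_X (F := F) (ι := ι) k
  have h1 : chk F k k ^ (2 * N) * Dl F ι k ^ N ∈ aI e (k + 1) (P.restrictScalars F) := by
    rw [pow_mul, ← mul_pow, ← hq, mul_pow, mul_comm]
    exact Ideal.mul_mem_left _ _ hV
  have h2 := h1 n
  have h6 : act A (Dl F ι k ^ N) (om e (k + 1)) = fun n : G ι => e (n k) * eta0 F e k N n := by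
    funext l
    exact act_Rd (Subalgebra.pow_mem _ (Dl_mem_Rd k) N) e (om e k) l
  rw [act_mul, h6] at h2
  exact h2

/-- Relabelling. -/
def Rel (F : Type*) [Field F] {ι : Type} [AddCommMonoid ι] (A : Type*) [Ring A]
    [Algebra F A] (k j : ℕ) (f g : K F ι) : Prop :=
  ∀ h : G ι → A, Ind h j → ∀ n : G ι,
    act A f (fun n => h (Function.update n k (n j))) n = act A g h (Function.update n k (n j))

lemma Rel.mul {k j : ℕ} {f g f' g' : K F ι} (h1 : Rel F A k j f g) (h2 : Rel F A k j f' g') :
    Rel F A k j (f * f') (g * g') := by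
  intro h hh n
  rw [act_mul, act_mul]
  have h3 : act A f' (fun n => h (Function.update n k (n j))) =
      fun n => act A g' h (Function.update n k (n j)) := by
    funext m
    exact h2 h hh m
  rw [h3]
  exact h1 (act A g' h) (Ind_act hh g') n

lemma Rel.one {k j : ℕ} : Rel F A k j (1 : K F ι) 1 := by
  intro h _ n
  rw [act_one, act_one]

lemma Rel.pow {k j : ℕ} {f g : K F ι} (h1 : Rel F A k j f g) (r : ℕ) :
    Rel F A k j (f ^ r) (g ^ r) := by
  induction r with
  | zero => rw [pow_zero, pow_zero]; exact Rel.one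
  | succ r ih => rw [pow_succ, pow_succ]; exact ih.mul h1

lemma Rel.D {k j i : ℕ} (hjk : j ≠ k) (hi : i ≠ j) (hik : i ≠ k) :
    Rel F A k j (X j - X i : K F ι) (X k - X i) := by
  intro h hh n
  rw [map_sub, map_sub, LinearMap.sub_apply, LinearMap.sub_apply, Pi.sub_apply, Pi.sub_apply,
    act_X, act_X, act_X, act_X]
  congr 1
  · apply hh
    intro b hb
    by_cases hbk : b = k
    · subst hbk
      rw [Function.update_self, Pi.add_apply, Pi.add_apply, Function.update_self, dl_self, dl_self]
    · rw [Function.update_of_ne hbk, Pi.add_apply, Pi.add_apply, Function.update_of_ne hbk,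
        dl_ne (Ne.symm hb), dl_ne (Ne.symm hbk)]
  · congr 1
    funext b
    by_cases hbk : b = k
    · subst hbk
      rw [Function.update_self, Pi.add_apply, Pi.add_apply, Function.update_self, dl_ne hi,
        dl_ne hik]
    · rw [Function.update_of_ne hbk, Pi.add_apply, Pi.add_apply, Function.update_of_ne hbk]

lemma Rel.chk {k j : ℕ} (hjk : k < j) : Rel F A k j (chk F k j : K F ι) (chk F k k) := by
  unfold W.chk
  have : ∀ s : Finset ℕ, s ⊆ Finset.range k →
      Rel F A k j (∏ i ∈ s, (X j - X i) : K F ι) (∏ i ∈ s, (X k - X i)) := by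
    intro s
    induction s using Finset.induction_on with
    | empty => intro _; rw [Finset.prod_empty, Finset.prod_empty]; exact Rel.one
    | insert a s ha ih =>
      intro hs
      rw [Finset.prod_insert ha, Finset.prod_insert ha]
      have hak := Finset.mem_range.mp (hs (Finset.mem_insert_self a s))
      exact (Rel.D (by omega) (by omega) (by omega)).mul
        (ih ((Finset.subset_insert a s).trans hs))
  exact this _ (Finset.Subset.refl _)

lemma rec_base {P : Ideal A} {k N : ℕ}
    (hV : Dl F ι (k + 1) ^ N ∈ aI e (k + 1) (P.restrictScalars F)) {j : ℕ} (hj : k ≤ j) (n : G ι) :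
    act A (chk F k j ^ (2 * N)) (fun n => e (n j) * eta0 F e k N n) n ∈ P := by
  rcases Nat.eq_or_lt_of_le hj with rfl | hj
  · exact rec_base_k hV n
  · have h1 := (Rel.chk (F := F) (ι := ι) (A := A) hj).pow (2 * N)
      (fun n => e (n k) * eta0 F e k N n) (Ind_mul (by
        intro m m' hm
        beta_reduce
        rw [hm k (by omega)]) (Ind_eta0' k N (by omega))) n
    beta_reduce at h1
    have h2 : (fun n : G ι => e (Function.update n k (n j) k) *
        eta0 F e k N (Function.update n k (n j))) = fun n => e (n j) * eta0 F e k N n := by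
      funext m
      rw [Function.update_self]
      congr 1
      apply Ind_eta0' (j := k) k N le_rfl
      intro b hb
      rw [Function.update_of_ne hb]
    rw [h2] at h1
    rw [h1]
    exact rec_base_k hV _

/-- The recurrences for words. -/
lemma rec_word (he : IsW F e) {P : Ideal A} {k N : ℕ}
    (hV : Dl F ι (k + 1) ^ N ∈ aI e (k + 1) (P.restrictScalars F)) {j : ℕ} (hj : k ≤ j)
    (w : List ι) (n : G ι) :
    act A (chk F k j ^ (2 * N + w.length)) (fun n => e (n j) * (wd e w * eta0 F e k N n)) n ∈ P := by
  induction w generalizing n with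
  | nil => simpa using rec_base hV hj n
  | cons v w ih =>
    have h1 := rec_step he (f := chk F k j) (h := fun n => wd e w * eta0 F e k N n)
      (Ind_mul (Ind_const _ j) (Ind_eta0' k N hj)) ih v n
    rw [List.length_cons, ← add_assoc]
    simpa only [wd_cons, mul_assoc] using h1

lemma act_pow_mem_mono {P : Ideal A} {f : K F ι} {r s : ℕ} (hrs : r ≤ s) {h : G ι → A}
    (hr : ∀ n, act A (f ^ r) h n ∈ P) (n : G ι) : act A (f ^ s) h n ∈ P := by
  obtain ⟨t, rfl⟩ := Nat.exists_eq_add_of_le hrs
  rw [pow_add, mul_comm, act_mul]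
  exact act_mem (P.restrictScalars F) _ _ hr n

/-- The recurrences for elements. -/
lemma rec_elt (he : IsW F e) {P : Ideal A} {k N : ℕ}
    (hV : Dl F ι (k + 1) ^ N ∈ aI e (k + 1) (P.restrictScalars F)) {j : ℕ} (hj : k ≤ j)
    {u : A} {r : ℕ} (hu : u ∈ Fl F e r) (w : List ι) (n : G ι) :
    act A (chk F k j ^ (2 * N + w.length + r))
      (fun n => e (n j) * (wd e w * (u * eta0 F e k N n))) n ∈ P := by
  unfold Fl at hu
  induction hu using Submodule.span_induction with
  | mem z hz =>
    obtain ⟨w', hw', rfl⟩ := hz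
    have h1 := act_pow_mem_mono (s := 2 * N + w.length + r)
      (by rw [List.length_append]; omega) (rec_word he hV hj (w ++ w')) n
    have h2 : wd e (w ++ w') = wd e w * wd e w' := by simp [wd]
    simpa only [h2, mul_assoc] using h1
  | zero =>
    have : (fun n : G ι => e (n j) * (wd e w * ((0 : A) * eta0 F e k N n))) = 0 := by
      funext m; simp
    rw [this, map_zero]
    exact P.zero_mem
  | add y z _ _ hy hz =>
    have : (fun n : G ι => e (n j) * (wd e w * ((y + z) * eta0 F e k N n))) =
        (fun n => e (n j) * (wd e w * (y * eta0 F e k N n))) +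
        fun n => e (n j) * (wd e w * (z * eta0 F e k N n)) := by
      funext m
      rw [add_mul, mul_add, mul_add]
      rfl
    rw [this, map_add, Pi.add_apply]
    exact P.add_mem hy hz
  | smul a y _ hy =>
    have : (fun n : G ι => e (n j) * (wd e w * ((a • y) * eta0 F e k N n))) =
        a • (fun n => e (n j) * (wd e w * (y * eta0 F e k N n))) := by
      funext m
      rw [smul_mul_assoc, mul_smul_comm, mul_smul_comm]
      rfl
    rw [this, map_smul, Pi.smul_apply]
    exact (P.restrictScalars F).smul_mem a hy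

end Pool.Agent.R693.W
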