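import Pool.Agent.R693.R.Rec

/-!
Restriction of prime ideals from the Witt algebra to its positive part: primality.
-/

set_option autoImplicit false
set_option linter.unusedSectionVars false

namespace Pool.Agent.R693.W

section descend
variable {F : Type*} [Field F] [CharZero F] {ι : Type} [AddCommMonoid ι] [Lab ι]
variable {A : Type*} [Ring A] [Algebra F A]

lemma adjoin_closed (W : Submodule F (G ι → A)) {S : Set (K F ι)}
    (hS : ∀ g ∈ S, ∀ h ∈ W, act A g h ∈ W) {f : K F ι} (hf : f ∈ Algebra.adjoin F S) :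
    ∀ h ∈ W, act A f h ∈ W := by
  induction hf using Algebra.adjoin_induction with
  | mem g hg => exact hS g hg
  | algebraMap r =>
    intro h hh
    rw [AlgHom.commutes, Module.algebraMap_end_apply]
    exact W.smul_mem r hh
  | add p q _ _ hp hq =>
    intro h hh
    rw [map_add, LinearMap.add_apply]
    exact W.add_mem (hp h hh) (hq h hh)
  | mul p q _ _ hp hq =>
    intro h hh
    rw [act_mul]
    exact hp _ (hq h hh)

/-- Elements that are units modulo `X b`. -/
def UF (B : Subalgebra F (K F ι)) (b : ℕ) (p : K F ι) : Prop :=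
  ∃ c ∈ B, ∃ q ∈ B, c * p = 1 + X b * q

lemma UF.mul {B : Subalgebra F (K F ι)} {b : ℕ} (hX : X b ∈ B) {p p' : K F ι} (h : UF B b p)
    (h' : UF B b p') : UF B b (p * p') := by
  obtain ⟨c, hc, q, hq, h1⟩ := h
  obtain ⟨c', hc', q', hq', h2⟩ := h'
  refine ⟨c * c', B.mul_mem hc hc', q + q' + X b * (q * q'),
    B.add_mem (B.add_mem hq hq') (B.mul_mem hX (B.mul_mem hq hq')), ?_⟩
  calc c * c' * (p * p') = (c * p) * (c' * p') := by ring
    _ = 1 + X b * (q + q' + X b * (q * q')) := by rw [h1, h2]; ring

lemma UF.one {B : Subalgebra F (K F ι)} {b : ℕ} : UF B b (1 : K F ι) :=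
  ⟨1, B.one_mem, 0, B.zero_mem, by ring⟩

lemma UF.pow {B : Subalgebra F (K F ι)} {b : ℕ} (hX : X b ∈ B) {p : K F ι} (h : UF B b p) (r : ℕ) :
    UF B b (p ^ r) := by
  induction r with
  | zero => rw [pow_zero]; exact UF.one
  | succ r ih => rw [pow_succ]; exact UF.mul hX ih h

lemma UF.prod {B : Subalgebra F (K F ι)} {b : ℕ} (hX : X b ∈ B) {κ : Type*} (s : Finset κ)
    (p : κ → K F ι) (h : ∀ i ∈ s, UF B b (p i)) : UF B b (∏ i ∈ s, p i) := by
  classical
  induction s using Finset.induction_on with
  | empty => rw [Finset.prod_empty]; exact UF.one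
  | insert a s ha ih =>
    rw [Finset.prod_insert ha]
    exact UF.mul hX (h a (Finset.mem_insert_self a s))
      (ih fun i hi => h i (Finset.mem_insert_of_mem hi))

/-- The descent. -/
lemma descend (PP : ℤ → Submodule F (G ι → A)) {S : Set (K F ι)} {b : ℕ} {p : K F ι}
    (hUF : UF (Algebra.adjoin F S) b p)
    (hS : ∀ m, ∀ g ∈ S, ∀ h ∈ PP m, act A g h ∈ PP m)
    (hX : ∀ m, ∀ h ∈ PP (m + 1), act A (X b : K F ι) h ∈ PP m)
    {h : G ι → A} (hp : ∀ m, act A p h ∈ PP m) {m0 : ℤ} (h0 : h ∈ PP m0) :
    ∀ m, m ≤ m0 → h ∈ PP m := by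
  obtain ⟨c, hc, q, hq, hcq⟩ := hUF
  have key : ∀ j : ℕ, h ∈ PP (m0 - j) := by
    intro j
    induction j with
    | zero => simpa using h0
    | succ j ih =>
      have h1 : h = act A (c * p) h - act A (X b : K F ι) (act A q h) := by
        rw [hcq, ← act_mul, map_add, LinearMap.add_apply, act_one, add_sub_cancel_right]
      rw [h1]
      refine Submodule.sub_mem _ ?_ ?_
      · rw [act_mul]
        exact adjoin_closed _ (hS _) hc _ (hp _)
      · apply hX
        apply adjoin_closed _ (hS _) hq
        have : m0 - ((j + 1 : ℕ) : ℤ) + 1 = m0 - j := by push_cast; ring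
        rwa [this]
  intro m hm
  have := key (m0 - m).toNat
  rwa [Int.toNat_of_nonneg (by omega), sub_sub_cancel] at this

end descend

section Z
variable {F : Type*} [Field F] [CharZero F]

lemma Xi_mul_X (i : ℕ) : Xi F ℤ i * X i = 1 := by
  unfold X Xi dl
  rw [AddMonoidAlgebra.single_mul_single, one_mul, AddMonoidAlgebra.one_def, ← Pi.single_add]
  have : (Lab.inv + Lab.one : ℤ) = 0 := rfl
  rw [this, Pi.single_zero]

lemma UF_up {B : Subalgebra F (K F ℤ)} {b i : ℕ} (hi : Xi F ℤ i ∈ B) :
    UF B b (X b - X i : K F ℤ) := by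
  refine ⟨-Xi F ℤ i, B.neg_mem hi, -Xi F ℤ i, B.neg_mem hi, ?_⟩
  linear_combination Xi_mul_X (F := F) i

lemma UF_dn {B : Subalgebra F (K F ℤ)} {b j : ℕ} (hj : Xi F ℤ j ∈ B) :
    UF B b (X j - X b : K F ℤ) := by
  refine ⟨Xi F ℤ j, hj, -Xi F ℤ j, B.neg_mem hj, ?_⟩
  linear_combination Xi_mul_X (F := F) j

lemma act_Xi {A : Type*} [Ring A] [Algebra F A] (i : ℕ) (h : G ℤ → A) (n : G ℤ) :
    act A (Xi F ℤ i) h n = h (n + Pi.single i (-1)) := by
  unfold Xi
  rw [act_single, one_smul]
  rfl

end Z

section prime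
variable {A : Type*} [Ring A]

lemma IsPrimeT.elt {P : TwoSidedIdeal A} (hP : IsPrimeT P) {a b : A} (h : ∀ x, a * x * b ∈ P) :
    a ∈ P ∨ b ∈ P := by
  let I : TwoSidedIdeal A := TwoSidedIdeal.mk' {c | ∀ u, c * u * b ∈ P}
    (fun u => by rw [zero_mul, zero_mul]; exact P.zero_mem)
    (fun {x y} hx hy u => by rw [add_mul, add_mul]; exact P.add_mem (hx u) (hy u))
    (fun {x} hx u => by rw [neg_mul, neg_mul]; exact P.neg_mem (hx u))
    (fun {x y} hy u => by
      rw [mul_assoc x, mul_assoc x]; exact P.mul_mem_left _ _ (hy u))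
    (fun {x y} hx u => by rw [mul_assoc x]; exact hx (y * u))
  have hI : ∀ {c : A}, c ∈ I ↔ ∀ u, c * u * b ∈ P := fun {c} => by
    change c ∈ TwoSidedIdeal.mk' _ _ _ _ _ _ ↔ _
    rw [TwoSidedIdeal.mem_mk']
    rfl
  rcases hP.2 I (colon I P) (fun c hc d hd => mem_colon.mp hd c hc) with h1 | h1
  · left
    exact h1 (hI.mpr h)
  · right
    apply h1
    rw [mem_colon]
    intro v hv
    have := hI.mp hv 1
    rwa [mul_one] at this

lemma isPrimeT_of_elt {P : TwoSidedIdeal A} (h1 : (1 : A) ∉ P)
    (h : ∀ a b : A, (∀ x, a * x * b ∈ P) → a ∈ P ∨ b ∈ P) : IsPrimeT P := by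
  refine ⟨?_, ?_⟩
  · intro h2
    apply h1
    rw [h2]
    trivial
  · intro I J hIJ
    by_contra hcon
    push Not at hcon
    obtain ⟨hI, hJ⟩ := hcon
    have hI' : ∃ a ∈ I, a ∉ P := by
      by_contra h3
      push Not at h3
      exact hI fun x hx => h3 x hx
    have hJ' : ∃ a ∈ J, a ∉ P := by
      by_contra h3
      push Not at h3
      exact hJ fun x hx => h3 x hx
    obtain ⟨a, ha, haP⟩ := hI'
    obtain ⟨b, hb, hbP⟩ := hJ'
    rcases h a b (fun x => hIJ _ (I.mul_mem_right _ _ ha) _ hb) with h3 | h3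
    · exact haP h3
    · exact hbP h3

end prime

section claim1
variable {F : Type*} [Field F] [CharZero F] {A : Type*} [Ring A] [Algebra F A] {e : ℤ → A}

/-- Words in nonnegative letters detect primality. -/
lemma restrict_prime (he : IsW F e) (hgen : ∀ x : A, ∃ k, x ∈ Fl F e k) {P : TwoSidedIdeal A}
    (hP : IsPrimeT P) {k N : ℕ} (hV : Dl F ℤ (k + 1) ^ N ∈ aI e (k + 1) (subsp F P))
    (hη : ∃ n, eta0 F e k N n ∉ P) {u u' : A}
    (h : ∀ w : List ℕ, u * wd (fun n : ℕ => e n) w * u' ∈ P) : u ∈ P ∨ u' ∈ P := by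
  have key : ∀ (a : A) (w : List ℤ) (w1 : List ℕ) (n : G ℤ),
      u * wd (fun n : ℕ => e n) w1 * (wd e w * (u' * a * eta0 F e k N n)) ∈ P := by
    intro a w
    induction w with
    | nil =>
      intro w1 n
      rw [wd_nil, one_mul, mul_assoc u', ← mul_assoc]
      exact P.mul_mem_right _ _ (h w1)
    | cons v w ih =>
      intro w1 n
      set g : G ℤ → A := fun n => u * wd (fun n : ℕ => e n) w1 *
        (e (n k) * (wd e w * (u' * a * eta0 F e k N n))) with hg
      obtain ⟨r, hr⟩ := hgen (u' * a)
      let PP : ℤ → Submodule F (G ℤ → A) := fun m =>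
        { carrier := {g | ∀ n : G ℤ, m ≤ n k → g n ∈ P}
          add_mem' := fun ha hb n hn => P.add_mem (ha n hn) (hb n hn)
          zero_mem' := fun n _ => P.zero_mem
          smul_mem' := fun c g hg n hn => (subsp F P).smul_mem c (hg n hn) }
      have hPP : ∀ m g, g ∈ PP m ↔ ∀ n : G ℤ, m ≤ n k → g n ∈ P := fun m g => Iff.rfl
      set S : Set (K F ℤ) := insert (X k) {f | ∃ i < k, f = Xi F ℤ i} with hS
      have h1 : ∀ m, m ≤ 0 → g ∈ PP m := by
        apply descend PP (S := S) (b := k) (p := chk F k k ^ (2 * N + w.length + r))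
        · apply UF.pow (Algebra.subset_adjoin (Set.mem_insert _ _))
          apply UF.prod (Algebra.subset_adjoin (Set.mem_insert _ _))
          intro i hi
          apply UF_up
          exact Algebra.subset_adjoin (Set.mem_insert_of_mem _ ⟨i, Finset.mem_range.mp hi, rfl⟩)
        · intro m f hf g' hg'
          rw [hPP] at hg' ⊢
          intro n hn
          rcases hf with rfl | ⟨i, hi, rfl⟩
          · rw [act_X]
            apply hg'
            rw [Pi.add_apply, dl_self]
            have : (Lab.one : ℤ) = 1 := rfl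
            omega
          · rw [act_Xi]
            apply hg'
            rw [Pi.add_apply, Pi.single_eq_of_ne (by omega), add_zero]
            exact hn
        · intro m g' hg'
          rw [hPP] at hg' ⊢
          intro n hn
          rw [act_X]
          apply hg'
          rw [Pi.add_apply, dl_self]
          have : (Lab.one : ℤ) = 1 := rfl
          omega
        · intro m
          rw [hPP]
          intro n _
          rw [hg, act_left]
          apply P.mul_mem_left
          have := rec_elt he (P := P.asIdeal) hV (le_refl k) hr w n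
          rwa [TwoSidedIdeal.mem_asIdeal] at this
        · rw [hPP]
          intro n hn
          have h2 := ih (w1 ++ [(n k).toNat]) n
          have h3 : wd (fun n : ℕ => e n) (w1 ++ [(n k).toNat]) =
              wd (fun n : ℕ => e n) w1 * e (n k) := by
            simp only [wd, List.map_append, List.prod_append, List.map_cons, List.map_nil,
              List.prod_cons, List.prod_nil, mul_one]
            rw [Int.toNat_of_nonneg hn]
          rw [h3] at h2
          rw [hg]
          simpa only [mul_assoc] using h2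
      have h2 := (hPP _ _).mp (h1 (min v 0) (min_le_right _ _)) (Function.update n k v) (by
        rw [Function.update_self]; exact min_le_left _ _)
      rw [hg] at h2
      beta_reduce at h2
      rw [Function.update_self] at h2
      have h3 : eta0 F e k N (Function.update n k v) = eta0 F e k N n := by
        apply Ind_eta0' k N le_rfl
        intro b hb
        rw [Function.update_of_ne hb]
      rw [h3] at h2
      rw [wd_cons, mul_assoc (e v)]
      exact h2
  have key2 : ∀ (a x : A) (n : G ℤ), u * x * (u' * a * eta0 F e k N n) ∈ P := by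
    intro a x n
    obtain ⟨r, hr⟩ := hgen x
    unfold Fl at hr
    induction hr using Submodule.span_induction with
    | mem z hz =>
      obtain ⟨w, _, rfl⟩ := hz
      have := key a w [] n
      rw [wd_nil, mul_one] at this
      rwa [mul_assoc u]
    | zero => rw [mul_zero, zero_mul]; exact P.zero_mem
    | add y z _ _ hy hz => rw [mul_add, add_mul]; exact P.add_mem hy hz
    | smul c y _ hy =>
      rw [mul_smul_comm, smul_mul_assoc]
      exact (subsp F P).smul_mem c hy
  by_cases hu : u ∈ P
  · exact Or.inl hu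
  · right
    obtain ⟨n, hn⟩ := hη
    have h3 : ∀ a, u' * a * eta0 F e k N n ∈ P := fun a =>
      (hP.elt (fun x => key2 a x n)).resolve_left hu
    exact (hP.elt h3).resolve_right hn

end claim1

end Pool.Agent.R693.W
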