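import Pool.Agent.R693.R.Surj1
import Pool.Agent.R693.W.VirAcc

/-!
Every nonzero prime ideal of the positive part is the restriction of a prime ideal.
-/

set_option autoImplicit false
set_option linter.unusedSectionVars false

namespace Pool.Agent.R693.Surj

open Pool.Agent.R693.W hiding X
open Pool.Agent.R693.Vir (Quo quo quo_surj quo_eq_zero)
open Polynomial

section module
variable {F : Type} [Field F] [CharZero F] {B : Type} [Ring B] [Algebra F B]

/-- Functions of integer labels. -/
def VB (F B : Type) [Field F] [Ring B] [Algebra F B] : Type := G ℤ → B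

instance : AddCommGroup (VB F B) := inferInstanceAs (AddCommGroup (G ℤ → B))

noncomputable instance : Module (K F ℤ) (VB F B) :=
  Module.compHom (G ℤ → B) (act (C := F) (ι := ℤ) B).toRingHom

lemma smul_VB (p : K F ℤ) (f : VB F B) : p • f = act B p f := rfl

variable (F B) in
/-- Functions vanishing at infinity. -/
noncomputable def ZZ (k : ℕ) : Submodule (K F ℤ) (VB F B) where
  carrier := {f | ∃ c : ℤ, ∀ n : G ℤ, (∀ i < k, c ≤ n i) → f n = 0}
  add_mem' := by
    rintro g g' ⟨c, hc⟩ ⟨c', hc'⟩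
    refine ⟨max c c', fun n hn => ?_⟩
    have h1 := hc n fun i hi => (le_max_left _ _).trans (hn i hi)
    have h2 := hc' n fun i hi => (le_max_right _ _).trans (hn i hi)
    change g n + g' n = 0
    rw [h1, h2, add_zero]
  zero_mem' := ⟨0, fun n _ => rfl⟩
  smul_mem' := by
    rintro p g ⟨c, hc⟩
    have h1 : (g : G ℤ → B) ∈ Inf (⊥ : Submodule F B) k :=
      ⟨c, fun n hn => by rw [Submodule.mem_bot]; exact hc n hn⟩
    obtain ⟨c', hc'⟩ := Inf_act p h1
    exact ⟨c', fun n hn => by have := hc' n hn; rwa [Submodule.mem_bot] at this⟩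

lemma mem_ZZ {k : ℕ} {f : VB F B} :
    f ∈ ZZ F B k ↔ ∃ c : ℤ, ∀ n : G ℤ, (∀ i < k, c ≤ n i) → f n = 0 := Iff.rfl

variable (F B) in
/-- Germs at infinity. -/
abbrev GM (k : ℕ) := VB F B ⧸ ZZ F B k

variable (F) in
/-- Left multiplication. -/
noncomputable def lm (b : B) : VB F B →ₗ[K F ℤ] VB F B where
  toFun f := fun n => b * f n
  map_add' f g := by
    funext n
    exact mul_add _ _ _
  map_smul' p f := by
    funext n
    exact (act_left p b f n).symm

variable (F) in
/-- Left multiplication on germs. -/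
noncomputable def lmZ (k : ℕ) (b : B) : Module.End (K F ℤ) (GM F B k) :=
  (ZZ F B k).mapQ (ZZ F B k) (lm F b) (by
    rintro f ⟨c, hc⟩
    refine ⟨c, fun n hn => ?_⟩
    change b * f n = 0
    rw [hc n hn, mul_zero])

lemma lmZ_mk (k : ℕ) (b : B) (f : VB F B) :
    lmZ F k b (Submodule.Quotient.mk f) = Submodule.Quotient.mk (lm F b f) := rfl

/-- Truncation of labels. -/
def tau (n : G ℤ) : G ℕ := fun i => (n i).toNat

variable (F) in
/-- The sequence of germs given by a function. -/
noncomputable def Th (k : ℕ) (h : G ℕ → B) (m : ℕ) : GM F B k :=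
  Submodule.Quotient.mk (fun n => h (Function.update (tau n) k m) : VB F B)

/-- The compatibility of the two actions. -/
def RelT (F B : Type) [Field F] [CharZero F] [Ring B] [Algebra F B] (k : ℕ) (f : K F ℕ) (p : (K F ℤ)[X]) :
    Prop :=
  ∀ h : G ℕ → B, Th F k (act B f h) = aeval (Ext.sh (K F ℤ) (GM F B k)) p (Th F k h)

lemma RelT.mul {k : ℕ} {f g : K F ℕ} {p q : (K F ℤ)[X]} (h1 : RelT F B k f p)
    (h2 : RelT F B k g q) : RelT F B k (f * g) (p * q) := by
  intro h
  rw [act_mul, h1, h2, map_mul, Module.End.mul_apply]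

lemma RelT.one {k : ℕ} : RelT F B k 1 1 := by
  intro h
  rw [act_one, map_one, Module.End.one_apply]

lemma RelT.pow {k : ℕ} {f : K F ℕ} {p : (K F ℤ)[X]} (h1 : RelT F B k f p) (r : ℕ) :
    RelT F B k (f ^ r) (p ^ r) := by
  induction r with
  | zero => rw [pow_zero, pow_zero]; exact RelT.one
  | succ r ih => rw [pow_succ, pow_succ]; exact ih.mul h1

lemma RelT.sub {k : ℕ} {f g : K F ℕ} {p q : (K F ℤ)[X]} (h1 : RelT F B k f p)
    (h2 : RelT F B k g q) : RelT F B k (f - g) (p - q) := by
  intro h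
  rw [map_sub (aeval _), LinearMap.sub_apply, ← h1, ← h2]
  funext m
  have h3 : act B (f - g) h = act B f h - act B g h := by rw [map_sub]; rfl
  rw [h3]
  rfl

lemma RelT.prod {k : ℕ} (s : Finset ℕ) (f : ℕ → K F ℕ) (p : ℕ → (K F ℤ)[X])
    (h : ∀ i ∈ s, RelT F B k (f i) (p i)) : RelT F B k (∏ i ∈ s, f i) (∏ i ∈ s, p i) := by
  classical
  induction s using Finset.induction_on with
  | empty => rw [Finset.prod_empty, Finset.prod_empty]; exact RelT.one
  | insert a s ha ih =>
    rw [Finset.prod_insert ha, Finset.prod_insert ha]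
    exact (h a (Finset.mem_insert_self a s)).mul (ih fun i hi => h i (Finset.mem_insert_of_mem hi))

lemma RelT.Xk (k : ℕ) : RelT F B k (W.X k) X := by
  intro h
  rw [aeval_X]
  funext m
  change Submodule.Quotient.mk _ = Submodule.Quotient.mk _
  congr 1
  funext n
  rw [act_X]
  congr 1
  funext a
  rw [Pi.add_apply]
  by_cases ha : a = k
  · subst ha
    rw [Function.update_self, Function.update_self, dl_self]
    rfl
  · rw [Function.update_of_ne ha, Function.update_of_ne ha, dl_ne (Ne.symm ha), add_zero]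

lemma RelT.Xi {k i : ℕ} (hi : i < k) : RelT F B k (W.X i) (C (W.X i)) := by
  intro h
  rw [aeval_C, Module.algebraMap_end_apply]
  funext m
  rw [Pi.smul_apply]
  change Submodule.Quotient.mk _ = _ • Submodule.Quotient.mk _
  rw [← Submodule.Quotient.mk_smul, Submodule.Quotient.eq]
  refine ⟨0, fun n hn => ?_⟩
  change act B (W.X i) h (Function.update (tau n) k m) - act B (W.X i)
    (fun n => h (Function.update (tau n) k m)) n = 0
  rw [act_X, act_X, sub_eq_zero]
  congr 1
  funext a
  rw [Pi.add_apply]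
  by_cases ha : a = k
  · subst ha
    rw [Function.update_self, Function.update_self, dl_ne (by omega), add_zero]
  · rw [Function.update_of_ne ha, Function.update_of_ne ha]
    by_cases hai : a = i
    · subst hai
      have := hn a hi
      change (n a).toNat + (dl a : G ℕ) a = (n a + (dl a : G ℤ) a).toNat
      rw [dl_self, dl_self]
      have h1 : (Lab.one : ℕ) = 1 := rfl
      have h2 : (Lab.one : ℤ) = 1 := rfl
      rw [h1, h2]
      omega
    · change (n a).toNat + (dl i : G ℕ) a = (n a + (dl i : G ℤ) a).toNat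
      rw [dl_ne (Ne.symm hai), dl_ne (Ne.symm hai), add_zero, add_zero]

variable (F) in
/-- The characteristic polynomial. -/
noncomputable def PP (k : ℕ) : (K F ℤ)[X] := ∏ i ∈ Finset.range k, (X - C (W.X i))

lemma RelT.chk (k : ℕ) : RelT F B k (chk F k k) (PP F k) := by
  unfold W.chk PP
  apply RelT.prod
  intro i hi
  exact (RelT.Xk k).sub (RelT.Xi (Finset.mem_range.mp hi))

lemma PP_unit (k : ℕ) : IsUnit ((PP F k).coeff 0) := by
  rw [coeff_zero_eq_eval_zero]
  unfold PP
  rw [eval_prod]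
  have : ∀ s : Finset ℕ, IsUnit (∏ i ∈ s, eval 0 (X - C (W.X i : K F ℤ))) := by
    intro s
    induction s using Finset.induction_on with
    | empty => rw [Finset.prod_empty]; exact isUnit_one
    | insert a s ha ih =>
      rw [Finset.prod_insert ha]
      refine IsUnit.mul ?_ ih
      rw [eval_sub, eval_X, eval_C, zero_sub, IsUnit.neg_iff]
      exact IsUnit.of_mul_eq_one_right _ (Xi_mul_X a)
  exact this _

lemma lmZ_mul (k : ℕ) (a b : B) : lmZ F k (a * b) = lmZ F k a * lmZ F k b := by
  apply LinearMap.ext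
  intro f
  obtain ⟨g, rfl⟩ := Submodule.Quotient.mk_surjective _ f
  rw [Module.End.mul_apply, lmZ_mk, lmZ_mk, lmZ_mk]
  congr 1
  funext n
  exact mul_assoc _ _ _

lemma lmZ_add (k : ℕ) (a b : B) : lmZ F k (a + b) = lmZ F k a + lmZ F k b := by
  apply LinearMap.ext
  intro f
  obtain ⟨g, rfl⟩ := Submodule.Quotient.mk_surjective _ f
  rw [LinearMap.add_apply, lmZ_mk, lmZ_mk, lmZ_mk, ← Submodule.Quotient.mk_add]
  congr 1
  funext n
  exact add_mul _ _ _

lemma lmZ_zero (k : ℕ) : lmZ F k (0 : B) = 0 := by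
  have h := lmZ_add (F := F) k (0 : B) 0
  rw [add_zero] at h
  exact left_eq_add.mp h

lemma lmZ_one (k : ℕ) : lmZ F k (1 : B) = 1 := by
  apply LinearMap.ext
  intro f
  obtain ⟨g, rfl⟩ := Submodule.Quotient.mk_surjective _ f
  rw [Module.End.one_apply, lmZ_mk]
  congr 1
  funext n
  exact one_mul _

lemma lmZ_smul (k : ℕ) (r : F) (a : B) :
    lmZ F k (r • a) = algebraMap F (K F ℤ) r • lmZ F k a := by
  apply LinearMap.ext
  intro f
  obtain ⟨g, rfl⟩ := Submodule.Quotient.mk_surjective _ f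
  rw [LinearMap.smul_apply, lmZ_mk, lmZ_mk, ← Submodule.Quotient.mk_smul]
  congr 1
  rw [smul_VB, AlgHom.commutes, Module.algebraMap_end_apply]
  funext n
  exact smul_mul_assoc _ _ _

end module

section lift
variable {F : Type} [Field F] [CharZero F] {Ap : Type} [Ring Ap] [Algebra F Ap] {ep : ℕ → Ap}

variable (F ep) in
/-- The generators of the module. -/
noncomputable def gen (Q : TwoSidedIdeal Ap) (k N : ℕ) (u : Ap) : GM F (Quo Q) k :=
  Submodule.Quotient.mk (fun n => quo (F := F) Q (u * eta0 F ep k N (tau n)) : VB F (Quo Q))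

lemma lm_gen (Q : TwoSidedIdeal Ap) (k N : ℕ) (a u : Ap) :
    lmZ F k (quo (F := F) Q a) (gen F ep Q k N u) = gen F ep Q k N (a * u) := by
  unfold gen
  rw [lmZ_mk]
  congr 1
  funext n
  change quo (F := F) Q a * quo (F := F) Q (u * eta0 F ep k N (tau n)) =
    quo (F := F) Q (a * u * eta0 F ep k N (tau n))
  rw [← map_mul, mul_assoc]

variable (F ep) in
/-- The module. -/
noncomputable def MM (Q : TwoSidedIdeal Ap) (k N : ℕ) : Submodule (K F ℤ) (GM F (Quo Q) k) :=
  Submodule.span (K F ℤ) (Set.range (gen F ep Q k N))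

lemma MM_stable (Q : TwoSidedIdeal Ap) (k N : ℕ) (a : Ap) :
    ∀ f ∈ MM F ep Q k N, lmZ F k (quo (F := F) Q a) f ∈ MM F ep Q k N := by
  intro f hf
  unfold MM at hf
  induction hf using Submodule.span_induction with
  | mem y hy =>
    obtain ⟨u, rfl⟩ := hy
    rw [lm_gen]
    exact Submodule.subset_span ⟨_, rfl⟩
  | zero => rw [map_zero]; exact Submodule.zero_mem _
  | add y z _ _ hy hz => rw [map_add]; exact Submodule.add_mem _ hy hz
  | smul p y _ hy => rw [map_smul]; exact Submodule.smul_mem _ _ hy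

/-- The operators on the module. -/
noncomputable def rhoM (Q : TwoSidedIdeal Ap) (k N : ℕ) (a : Ap) :
    Module.End (K F ℤ) (MM F ep Q k N) :=
  (lmZ F k (quo (F := F) Q a)).restrict (MM_stable Q k N a)

lemma rhoM_apply (Q : TwoSidedIdeal Ap) (k N : ℕ) (a : Ap) (f : MM F ep Q k N) :
    (rhoM Q k N a f : GM F (Quo Q) k) = lmZ F k (quo (F := F) Q a) f := rfl

lemma rec_gen (hep : IsW F ep) (hgen : ∀ x : Ap, ∃ k, x ∈ Fl F ep k) (Q : TwoSidedIdeal Ap)
    {k N : ℕ} (hV : Dl F ℕ (k + 1) ^ N ∈ aI ep (k + 1) (subsp F Q)) (u : Ap) :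
    (fun m => lmZ F k (quo (F := F) Q (ep m)) (gen F ep Q k N u)) ∈ Ext.TT (PP F k) := by
  obtain ⟨r, hr⟩ := hgen u
  refine ⟨2 * N + r, ?_⟩
  set h : G ℕ → Ap := fun n => ep (n k) * (u * eta0 F ep k N n) with hh
  have h1 : (fun m => lmZ F k (quo (F := F) Q (ep m)) (gen F ep Q k N u)) =
      Th F k (fun n => quo (F := F) Q (h n)) := by
    funext m
    rw [lm_gen]
    unfold gen Th
    congr 1
    funext n
    rw [hh]
    beta_reduce
    rw [Function.update_self, mul_assoc]
    congr 3
    apply Dep_eta0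
    intro i hi
    rw [Function.update_of_ne (by omega)]
  rw [h1, ← ((RelT.chk k).pow (2 * N + r) : RelT F (Quo Q) k _ _)]
  have h2 : act (Quo Q) (chk F k k ^ (2 * N + r)) (fun n => quo (F := F) Q (h n)) = 0 := by
    funext n
    have h3 := act_map (quo (F := F) Q).toLinearMap (chk F k k ^ (2 * N + r)) h n
    refine h3.trans ?_
    change quo (F := F) Q _ = 0
    rw [quo_eq_zero]
    have := rec_elt hep (P := Q.asIdeal) hV (le_refl k) hr [] n
    rw [TwoSidedIdeal.mem_asIdeal] at this
    simpa using this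
  rw [h2]
  rfl

lemma rec_MM (hep : IsW F ep) (hgen : ∀ x : Ap, ∃ k, x ∈ Fl F ep k) (Q : TwoSidedIdeal Ap)
    {k N : ℕ} (hV : Dl F ℕ (k + 1) ^ N ∈ aI ep (k + 1) (subsp F Q)) (f : MM F ep Q k N) :
    (fun m => rhoM Q k N (ep m) f) ∈ Ext.TT (PP F k) := by
  have h1 : (fun m => lmZ F k (quo (F := F) Q (ep m)) (f : GM F (Quo Q) k)) ∈
      Ext.TT (PP F k) := by
    obtain ⟨f, hf⟩ := f
    unfold MM at hf
    change (fun m => lmZ F k (quo (F := F) Q (ep m)) f) ∈ Ext.TT (PP F k)
    induction hf using Submodule.span_induction with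
    | mem y hy =>
      obtain ⟨u, rfl⟩ := hy
      exact rec_gen hep hgen Q hV u
    | zero =>
      have : (fun m => lmZ F k (quo (F := F) Q (ep m)) (0 : GM F (Quo Q) k)) = 0 := by
        funext m; exact map_zero _
      rw [this]
      exact Submodule.zero_mem _
    | add y z _ _ hy hz =>
      have : (fun m => lmZ F k (quo (F := F) Q (ep m)) (y + z)) =
          (fun m => lmZ F k (quo (F := F) Q (ep m)) y) +
            fun m => lmZ F k (quo (F := F) Q (ep m)) z := by
        funext m; exact map_add _ _ _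
      rw [this]
      exact Submodule.add_mem _ hy hz
    | smul p y _ hy =>
      have : (fun m => lmZ F k (quo (F := F) Q (ep m)) (p • y)) =
          p • fun m => lmZ F k (quo (F := F) Q (ep m)) y := by
        funext m; exact map_smul _ _ _
      rw [this]
      exact Submodule.smul_mem _ _ hy
  obtain ⟨r, hr⟩ := h1
  refine ⟨r, ?_⟩
  funext m
  apply Subtype.ext
  have h2 := Ext.aeval_map' (MM F ep Q k N).subtype (PP F k ^ r) (fun m => rhoM Q k N (ep m) f)
  have h3 := congrFun h2 m
  have h4 := congrFun hr m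
  exact h3.symm.trans h4

/-- Every nonzero prime ideal is the restriction of a prime ideal. -/
theorem exists_lift {A : Type} [Ring A] [Algebra F A] {e : ℤ → A} (φ : Ap →ₐ[F] A)
    (hφ : ∀ n : ℕ, φ (ep n) = e n) (hep : IsW F ep) (hgen : ∀ x : Ap, ∃ k, x ∈ Fl F ep k)
    (huniv : ∀ (B : Type) [Ring B] [Algebra F B] (y : ℤ → B), IsW F y →
      ∃ ψ : A →ₐ[F] B, ∀ n, ψ (e n) = y n)
    {Q : TwoSidedIdeal Ap} (hQ : IsPrimeT Q) (hQ0 : Q ≠ ⊥) :
    ∃ P : TwoSidedIdeal A, IsPrimeT P ∧ ∀ u, φ u ∈ P ↔ u ∈ Q := by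
  obtain ⟨k, N, hV, hη⟩ := exists_min (F := F) hep hgen hQ0 hQ.1
  obtain ⟨ρ, hρ1, hρ2⟩ := Ext.exists_ext (PP_unit (F := F) k)
    (fun m => rhoM (F := F) (ep := ep) Q k N (ep m)) (by
      intro m n j hmn
      apply LinearMap.ext
      intro f
      apply Subtype.ext
      change lmZ F k (quo (F := F) Q (ep m)) (lmZ F k (quo (F := F) Q (ep n)) f) -
        lmZ F k (quo (F := F) Q (ep n)) (lmZ F k (quo (F := F) Q (ep m)) f) =
        ((n : ℤ) - m) • lmZ F k (quo (F := F) Q (ep j)) (f : GM F (Quo Q) k)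
      have h1 := hep m n j hmn
      have h2 : ep m * ep n = ep n * ep m + ((Lab.c n - Lab.c m : ℤ) : F) • ep j := by
        rw [← h1]; abel
      rw [← Module.End.mul_apply, ← Module.End.mul_apply, ← lmZ_mul, ← lmZ_mul, ← map_mul,
        ← map_mul, h2, map_add, map_smul, lmZ_add, lmZ_smul, LinearMap.add_apply,
        LinearMap.smul_apply, add_sub_cancel_left, map_intCast, Int.cast_smul_eq_zsmul]
      rfl)
    (rec_MM hep hgen Q hV)
  let _ : Algebra F (Module.End (K F ℤ) (MM F ep Q k N)) :=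
    Algebra.compHom _ (algebraMap F (K F ℤ))
  have hsm : ∀ (r : F) (T : Module.End (K F ℤ) (MM F ep Q k N)),
      r • T = algebraMap F (K F ℤ) r • T := fun r T => rfl
  obtain ⟨Φ, hΦ⟩ := huniv (Module.End (K F ℤ) (MM F ep Q k N)) ρ (by
    intro m n j hmn
    have h2 : (Lab.one : ℤ) = 1 := rfl
    have h3 : ∀ k : ℤ, (Lab.c k : ℤ) = k := fun k => rfl
    rw [h2] at hmn
    have hj : m + n - 1 = j := by omega
    rw [hρ2, hj, hsm, map_intCast, h3, h3]
    apply LinearMap.ext
    intro f
    exact (Int.cast_smul_eq_zsmul (K F ℤ) (n - m) (ρ j f)).symm)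
  have hΦφ : ∀ u, Φ (φ u) = rhoM Q k N u := by
    intro u
    obtain ⟨r, hr⟩ := hgen u
    unfold Fl at hr
    induction hr using Submodule.span_induction with
    | mem z hz =>
      obtain ⟨w, -, rfl⟩ := hz
      induction w with
      | nil =>
        rw [wd_nil, map_one, map_one]
        apply LinearMap.ext
        intro f
        apply Subtype.ext
        rw [rhoM_apply, map_one, lmZ_one]
        rfl
      | cons v w ih =>
        rw [wd_cons, map_mul, map_mul, hφ, hΦ, ih, hρ1]
        apply LinearMap.ext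
        intro f
        apply Subtype.ext
        rw [rhoM_apply, map_mul, lmZ_mul]
        rfl
    | zero =>
      rw [map_zero, map_zero]
      apply LinearMap.ext
      intro f
      apply Subtype.ext
      rw [rhoM_apply, map_zero, lmZ_zero]
      rfl
    | add y z _ _ hy hz =>
      rw [map_add, map_add, hy, hz]
      apply LinearMap.ext
      intro f
      apply Subtype.ext
      rw [rhoM_apply, map_add, lmZ_add]
      rfl
    | smul a y _ hy =>
      rw [map_smul, map_smul, hy, hsm]
      apply LinearMap.ext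
      intro f
      apply Subtype.ext
      rw [rhoM_apply, map_smul, lmZ_smul]
      rfl
  have hin : ∀ u ∈ Q, φ u ∈ TwoSidedIdeal.ker Φ := by
    intro u hu
    rw [TwoSidedIdeal.mem_ker, hΦφ]
    apply LinearMap.ext
    intro f
    apply Subtype.ext
    rw [rhoM_apply, (quo_eq_zero Q).mpr hu, lmZ_zero]
    rfl
  have hout : ∀ u, φ u ∈ TwoSidedIdeal.ker Φ → u ∈ Q := by
    intro u hu
    rw [TwoSidedIdeal.mem_ker, hΦφ] at hu
    have h1 : (rhoM Q k N u ⟨gen F ep Q k N 1, Submodule.subset_span ⟨1, rfl⟩⟩ :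
        GM F (Quo Q) k) = 0 := by
      rw [hu]
      rfl
    rw [rhoM_apply, lm_gen, mul_one] at h1
    unfold gen at h1
    rw [Submodule.Quotient.mk_eq_zero] at h1
    obtain ⟨c, hc⟩ := h1
    apply mem_of_infty hep hgen hQ hV hη (c := c.toNat)
    intro n hn
    have h2 := hc (fun i => (n i : ℤ)) (fun i hi => by have := hn i hi; omega)
    have h3 : tau (fun i => (n i : ℤ)) = n := by
      funext i
      exact Int.toNat_natCast _
    beta_reduce at h2
    rw [h3] at h2
    exact (quo_eq_zero (F := F) Q).mp h2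
  obtain ⟨P, hP, hP0, hPS⟩ := exists_prime_disj (P0 := TwoSidedIdeal.ker Φ)
    (S := {s | ∃ u, u ∉ Q ∧ s = φ u}) ⟨_, 1, by
      intro h
      apply hQ.1
      rwa [← TwoSidedIdeal.one_mem_iff], rfl⟩ (by
      rintro _ ⟨u, hu, rfl⟩ _ ⟨v, hv, rfl⟩
      by_contra hcon
      push Not at hcon
      have : ∀ x, u * x * v ∈ Q := by
        intro x
        by_contra hx
        exact hcon (φ x) ⟨u * x * v, hx, by rw [map_mul, map_mul]⟩
      rcases hQ.elt this with h | h
      · exact hu h
      · exact hv h) (by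
      rintro _ ⟨u, hu, rfl⟩ h
      exact hu (hout u h))
  refine ⟨P, hP, fun u => ⟨fun h => ?_, fun h => hP0 (hin u h)⟩⟩
  by_contra hu
  exact hPS _ ⟨u, hu, rfl⟩ h

end lift

end Pool.Agent.R693.Surj
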