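import Pool.Agent.R693.R.Restrict

/-!
The span of the values of the basic function is stable under commutators.
-/

set_option autoImplicit false
set_option linter.unusedSectionVars false

namespace Pool.Agent.R693.W

variable {F : Type*} [Field F] [CharZero F] {ι : Type} [AddCommMonoid ι] [Lab ι]
variable {A : Type*} [Ring A] [Algebra F A] {e : ι → A}

/-- The product with the factor `j` replaced by the result of a commutator. -/
noncomputable def Wv (e : ι → A) (d : ℕ) (v : ι) (j : ℕ) (n : G ι) : A :=
  omy (Function.update (fun i => e (n i)) j (ext e (Lab.c (n j) + Lab.c v - 1))) d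

lemma adv_om (he : IsW F e) (d : ℕ) (v : ι) (n : G ι) :
    ad e v (om e d n) =
      ∑ j ∈ Finset.range d, ((Lab.c (n j) - Lab.c v : ℤ) : F) • Wv e d v j n := by
  unfold om
  rw [ad_omy]
  refine Finset.sum_congr rfl fun j hj => ?_
  rw [ad_e he, omy_smul _ (Finset.mem_range.mp hj)]
  rfl

lemma Wv_eq {d j : ℕ} {v : ι} {n n' : G ι} (h1 : ∀ i, i ≠ j → n' i = n i)
    (h2 : Lab.c (n' j) = Lab.c (n j) + Lab.c v - 1) : om e d n' = Wv e d v j n := by
  unfold om Wv
  apply omy_congr
  intro i _
  by_cases hij : i = j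
  · subst hij
    rw [Function.update_self, ← h2, ext_c]
  · rw [Function.update_of_ne hij, h1 i hij]

open Classical in
/-- The shifted label. -/
noncomputable def nv (v : ι) (j : ℕ) (n : G ι) : G ι :=
  Function.update n j (if h : ∃ i : ι, Lab.c i = Lab.c (n j) + Lab.c v - 1 then h.choose else 0)

lemma nv_spec {v : ι} {j : ℕ} {n : G ι} (h : n j ≠ v) :
    Lab.c (nv v j n j) = Lab.c (n j) + Lab.c v - 1 := by
  have h1 : ∃ i : ι, Lab.c i = Lab.c (n j) + Lab.c v - 1 := Lab.clos (n j) v h
  unfold nv
  rw [Function.update_self, dif_pos h1]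
  exact h1.choose_spec

lemma nv_ne {v : ι} {j : ℕ} {n : G ι} {i : ℕ} (h : i ≠ j) : nv v j n i = n i := by
  unfold nv
  rw [Function.update_of_ne h]

variable (F) in
/-- The monomial `X j ^ v`. -/
noncomputable def Xz (j : ℕ) (v : ι) : K F ι := AddMonoidAlgebra.single (Pi.single j v) 1

open Classical in
/-- The key formula. -/
lemma adv_act_om (he : IsW F e) (d : ℕ) (v : ι) (g : K F ι) (n : G ι) :
    ad e v (act A g (om e d) n) =
      act A (∑ j ∈ Finset.range d, Xz F j v * pd F ι j g) (om e d) n +
      ∑ j ∈ Finset.range d, ((Lab.c (n j) - Lab.c v : ℤ) : F) •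
        (if n j = v then 0 else act A g (om e d) (nv v j n)) := by
  induction g using AddMonoidAlgebra.induction_linear with
  | zero => simp [ad_zero]
  | add p q hp hq =>
    have h1 : (∑ j ∈ Finset.range d, Xz F j v * pd F ι j (p + q)) =
        (∑ j ∈ Finset.range d, Xz F j v * pd F ι j p) +
          ∑ j ∈ Finset.range d, Xz F j v * pd F ι j q := by
      rw [← Finset.sum_add_distrib]
      refine Finset.sum_congr rfl fun j _ => ?_
      rw [map_add, mul_add]
    have h2 : (∑ j ∈ Finset.range d, ((Lab.c (n j) - Lab.c v : ℤ) : F) •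
        (if n j = v then 0 else act A (p + q) (om e d) (nv v j n))) =
        (∑ j ∈ Finset.range d, ((Lab.c (n j) - Lab.c v : ℤ) : F) •
          (if n j = v then 0 else act A p (om e d) (nv v j n))) +
        ∑ j ∈ Finset.range d, ((Lab.c (n j) - Lab.c v : ℤ) : F) •
          (if n j = v then 0 else act A q (om e d) (nv v j n)) := by
      rw [← Finset.sum_add_distrib]
      refine Finset.sum_congr rfl fun j _ => ?_
      rw [← smul_add]
      congr 1
      split_ifs
      · rw [add_zero]
      · rw [map_add, LinearMap.add_apply, Pi.add_apply]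
    rw [h1, h2, map_add, LinearMap.add_apply, Pi.add_apply, ad_add, hp, hq, map_add,
      LinearMap.add_apply, Pi.add_apply]
    abel
  | single k r =>
    rw [act_single, ad_smul, adv_om he, map_sum, LinearMap.sum_apply, Finset.sum_apply,
      ← Finset.sum_add_distrib, Finset.smul_sum]
    refine Finset.sum_congr rfl fun j _ => ?_
    rw [pd_single]
    unfold Xz
    rw [AddMonoidAlgebra.single_mul_single, one_mul, act_single]
    have hk : (n + k : G ι) j = n j + k j := rfl
    have e1 : (r * ((Lab.c (k j) : ℤ) : F)) • om e d (n + (Pi.single j v + low j k)) =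
        (r * ((Lab.c (k j) : ℤ) : F)) • Wv e d v j (n + k) := by
      by_cases h : k j = 0
      · rw [h, map_zero, Int.cast_zero, mul_zero, zero_smul, zero_smul]
      · congr 1
        apply Wv_eq
        · intro i hi
          simp only [Pi.add_apply, Pi.single_eq_of_ne hi, zero_add]
          unfold low
          rw [Function.update_of_ne hi]
        · simp only [Pi.add_apply, Pi.single_eq_same, map_add]
          unfold low
          rw [Function.update_self, c_pred h]
          ring
    have e2 : ((Lab.c (n j) - Lab.c v : ℤ) : F) •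
        (if n j = v then 0 else act A (AddMonoidAlgebra.single k r) (om e d) (nv v j n)) =
        (((Lab.c (n j) - Lab.c v : ℤ) : F) * r) • Wv e d v j (n + k) := by
      split_ifs with h
      · rw [h, sub_self, Int.cast_zero, zero_mul, zero_smul, zero_smul]
      · rw [act_single, smul_smul]
        congr 1
        apply Wv_eq
        · intro i hi
          rw [Pi.add_apply, Pi.add_apply, nv_ne hi]
        · rw [Pi.add_apply, Pi.add_apply, map_add, map_add, nv_spec h]
          ring
    rw [e1, e2, smul_smul, ← add_smul]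
    congr 1
    rw [hk, map_add]
    push_cast
    ring

lemma Xz_pow (j : ℕ) (v : ι) (m : ℕ) : Xz F j (m • v) = Xz F j v ^ m := by
  unfold Xz
  rw [AddMonoidAlgebra.single_pow, one_pow]
  congr 1
  funext i
  by_cases hi : i = j
  · subst hi
    rw [Pi.smul_apply, Pi.single_eq_same, Pi.single_eq_same]
  · rw [Pi.smul_apply, Pi.single_eq_of_ne hi, Pi.single_eq_of_ne hi, smul_zero]

lemma Xz_one (j : ℕ) : Xz F j (Lab.one : ι) = X j := rfl

lemma Xz_dvd (a b : ℕ) (v : ι) : (X a - X b : K F ι) ∣ Xz F a v - Xz F b v := by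
  by_cases hv : 0 ≤ Lab.c v
  · have h1 : v = (Lab.c v).toNat • Lab.one := by
      apply Lab.inj
      rw [c_nsmul_one, Int.toNat_of_nonneg hv]
    rw [h1, Xz_pow, Xz_pow, Xz_one, Xz_one]
    exact sub_dvd_pow_sub_pow _ _ _
  · have hinv : Lab.c (Lab.inv : ι) = -1 := by
      rcases Lab.dich (ι := ι) with h | h
      · exact h
      · exact absurd (h v) hv
    have h1 : v = (-Lab.c v).toNat • Lab.inv := by
      apply Lab.inj
      rw [map_nsmul, hinv, nsmul_eq_mul, Int.toNat_of_nonneg (by omega)]
      simp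
    rw [h1, Xz_pow, Xz_pow]
    refine dvd_trans ?_ (sub_dvd_pow_sub_pow _ _ _)
    have h2 : ∀ i, Xz F i (Lab.inv : ι) * X i = 1 := by
      intro i
      unfold Xz X dl
      rw [AddMonoidAlgebra.single_mul_single, one_mul, AddMonoidAlgebra.one_def, ← Pi.single_add]
      have : (Lab.inv + Lab.one : ι) = 0 := by
        apply Lab.inj
        rw [map_add, Lab.c_one, hinv, map_zero]; rfl
      rw [this, Pi.single_zero]
    refine ⟨-(Xz F a Lab.inv * Xz F b Lab.inv), ?_⟩
    linear_combination (-Xz F a (Lab.inv : ι)) * h2 b + (Xz F b (Lab.inv : ι)) * h2 a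

lemma pd_X (j a : ℕ) : pd F ι j (X a) = if j = a then 1 else 0 := by
  unfold X
  rw [pd_single]
  split_ifs with h
  · subst h
    rw [dl_self, Lab.c_one, Int.cast_one, mul_one, AddMonoidAlgebra.one_def]
    congr 1
    funext i
    unfold low
    by_cases hi : i = j
    · subst hi
      rw [Function.update_self, dl_self]
      apply Lab.inj
      rw [c_pred, Lab.c_one, Pi.zero_apply, map_zero]
      · rfl
      · intro h
        have := congrArg Lab.c h
        rw [Lab.c_one, map_zero] at this
        exact one_ne_zero this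
    · rw [Function.update_of_ne hi, dl_ne (Ne.symm hi)]
      rfl
  · rw [dl_ne (Ne.symm h), map_zero, Int.cast_zero, mul_zero, AddMonoidAlgebra.single_zero]

variable (F) in
/-- The vector field `∑ X j ^ v ∂_j`. -/
noncomputable def Ev (d : ℕ) (v : ι) : Derivation F (K F ι) (K F ι) :=
  ∑ j ∈ Finset.range d, Xz F j v • pd F ι j

lemma Ev_apply (d : ℕ) (v : ι) (g : K F ι) :
    Ev F d v g = ∑ j ∈ Finset.range d, Xz F j v * pd F ι j g := by
  unfold Ev
  have : ∀ s : Finset ℕ, (∑ j ∈ s, Xz F j v • pd F ι j) g = ∑ j ∈ s, Xz F j v * pd F ι j g := by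
    intro s
    induction s using Finset.induction_on with
    | empty => rfl
    | insert a s ha ih =>
      rw [Finset.sum_insert ha, Finset.sum_insert ha, Derivation.add_apply, ih,
        Derivation.smul_apply, smul_eq_mul]
  exact this _

lemma Ev_X {d a : ℕ} (ha : a < d) (v : ι) : Ev F d v (X a) = Xz F a v := by
  rw [Ev_apply, Finset.sum_eq_single a]
  · rw [pd_X, if_pos rfl, mul_one]
  · intro j _ hja
    rw [pd_X, if_neg hja, mul_zero]
  · intro h
    exact absurd (Finset.mem_range.mpr ha) h

lemma Ev_dvd_mul {d : ℕ} {v : ι} {f g : K F ι} (hf : f ∣ Ev F d v f) (hg : g ∣ Ev F d v g) :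
    f * g ∣ Ev F d v (f * g) := by
  rw [Derivation.leibniz, smul_eq_mul, smul_eq_mul]
  obtain ⟨a, ha⟩ := hf
  obtain ⟨b, hb⟩ := hg
  refine ⟨b + a, ?_⟩
  rw [ha, hb]
  ring

lemma Ev_dvd_Dl (d : ℕ) (v : ι) : Dl F ι d ∣ Ev F d v (Dl F ι d) := by
  unfold Dl
  have : ∀ s : Finset (ℕ × ℕ), s ⊆ offd d →
      (∏ p ∈ s, ((X p.1 : K F ι) - X p.2)) ∣ Ev F d v (∏ p ∈ s, ((X p.1 : K F ι) - X p.2)) := by
    intro s
    induction s using Finset.induction_on with
    | empty => intro _; rw [Finset.prod_empty]; exact one_dvd _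
    | insert a s ha ih =>
      intro hs
      rw [Finset.prod_insert ha]
      apply Ev_dvd_mul _ (ih ((Finset.subset_insert a s).trans hs))
      have h1 := hs (Finset.mem_insert_self a s)
      unfold offd at h1
      simp only [Finset.mem_filter, Finset.mem_product, Finset.mem_range] at h1
      rw [map_sub, Ev_X h1.1.1, Ev_X h1.1.2]
      exact Xz_dvd _ _ _
  exact this _ (Finset.Subset.refl _)

lemma Ev_dvd_pow (d : ℕ) (v : ι) (N : ℕ) : Dl F ι d ^ N ∣ Ev F d v (Dl F ι d ^ N) := by
  induction N with
  | zero => rw [pow_zero]; exact one_dvd _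
  | succ N ih => rw [pow_succ]; exact Ev_dvd_mul ih (Ev_dvd_Dl d v)

open Classical in
/-- Commutators of the values of the basic function. -/
lemma ad_eta0 (he : IsW F e) (d N : ℕ) (v : ι) : ∃ q : K F ι, ∀ n : G ι,
    ad e v (eta0 F e d N n) = act A q (eta0 F e d N) n +
      ∑ j ∈ Finset.range d, ((Lab.c (n j) - Lab.c v : ℤ) : F) •
        (if n j = v then 0 else eta0 F e d N (nv v j n)) := by
  obtain ⟨q, hq⟩ := Ev_dvd_pow (F := F) (ι := ι) d v N
  refine ⟨q, fun n => ?_⟩
  have h1 := adv_act_om he d v (Dl F ι d ^ N) n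
  rw [← Ev_apply, hq, mul_comm, act_mul] at h1
  exact h1

variable (F e) in
/-- The span of the values of the basic function. -/
noncomputable def Sp (d N : ℕ) : Submodule F A := Submodule.span F (Set.range (eta0 F e d N))

lemma eta0_mem_Sp (d N : ℕ) (n : G ι) : eta0 F e d N n ∈ Sp F e d N :=
  Submodule.subset_span ⟨n, rfl⟩

lemma Sp_ad (he : IsW F e) (d N : ℕ) (v : ι) {x : A} (hx : x ∈ Sp F e d N) :
    ad e v x ∈ Sp F e d N := by
  classical
  unfold Sp at hx
  induction hx using Submodule.span_induction with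
  | mem y hy =>
    obtain ⟨n, rfl⟩ := hy
    obtain ⟨q, hq⟩ := ad_eta0 he d N v
    rw [hq]
    refine Submodule.add_mem _ (act_mem _ _ _ (eta0_mem_Sp d N) n)
      (Submodule.sum_mem _ fun j _ => Submodule.smul_mem _ _ ?_)
    split_ifs
    · exact Submodule.zero_mem _
    · exact eta0_mem_Sp d N _
  | zero => rw [ad_zero]; exact Submodule.zero_mem _
  | add y z _ _ hy hz => rw [ad_add]; exact Submodule.add_mem _ hy hz
  | smul a y _ hy => rw [ad_smul]; exact Submodule.smul_mem _ _ hy

lemma left_closed (hgen : ∀ x : A, ∃ k, x ∈ Fl F e k) {S : Submodule F A}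
    (hS : ∀ v, ∀ x ∈ S, ad e v x ∈ S) {P : TwoSidedIdeal A} {z : A} (hz : ∀ s ∈ S, s * z ∈ P)
    (c : A) : ∀ s ∈ S, s * (c * z) ∈ P := by
  obtain ⟨r, hr⟩ := hgen c
  unfold Fl at hr
  induction hr using Submodule.span_induction with
  | mem y hy =>
    obtain ⟨w, _, rfl⟩ := hy
    induction w with
    | nil => intro s hs; rw [wd_nil, one_mul]; exact hz s hs
    | cons v w ih =>
      intro s hs
      have ih' := ih (by
        have : w.length < (v :: w).length := by simp
        omega)
      have h1 : s * (wd e (v :: w) * z) = e v * (s * (wd e w * z)) - ad e v s * (wd e w * z) := by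
        rw [wd_cons]; unfold ad; noncomm_ring
      rw [h1]
      exact P.sub_mem (P.mul_mem_left _ _ (ih' s hs)) (ih' _ (hS v s hs))
  | zero => intro s _; rw [zero_mul, mul_zero]; exact P.zero_mem
  | add y y' _ _ hy hy' =>
    intro s hs
    rw [add_mul, mul_add]
    exact P.add_mem (hy s hs) (hy' s hs)
  | smul a y _ hy =>
    intro s hs
    rw [smul_mul_assoc, mul_smul_comm]
    exact (subsp F P).smul_mem a (hy s hs)

lemma right_closed (hgen : ∀ x : A, ∃ k, x ∈ Fl F e k) {S : Submodule F A}
    (hS : ∀ v, ∀ x ∈ S, ad e v x ∈ S) {P : TwoSidedIdeal A} {z : A} (hz : ∀ s ∈ S, z * s ∈ P)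
    (c : A) : ∀ s ∈ S, z * c * s ∈ P := by
  obtain ⟨r, hr⟩ := hgen c
  unfold Fl at hr
  induction hr using Submodule.span_induction with
  | mem y hy =>
    obtain ⟨w, -, rfl⟩ := hy
    induction w generalizing z with
    | nil => intro s hs; rw [wd_nil, mul_one]; exact hz s hs
    | cons v w ih =>
      intro s hs
      have h1 : ∀ s ∈ S, z * e v * s ∈ P := by
        intro s hs
        have : z * e v * s = z * s * e v + z * ad e v s := by unfold ad; noncomm_ring
        rw [this]
        exact P.add_mem (P.mul_mem_right _ _ (hz s hs)) (hz _ (hS v s hs))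
      have := ih h1 s hs
      rwa [wd_cons, ← mul_assoc]
  | zero => intro s _; rw [mul_zero, zero_mul]; exact P.zero_mem
  | add y y' _ _ hy hy' =>
    intro s hs
    rw [mul_add, add_mul]
    exact P.add_mem (hy s hs) (hy' s hs)
  | smul a y _ hy =>
    intro s hs
    rw [mul_smul_comm, smul_mul_assoc]
    exact (subsp F P).smul_mem a (hy s hs)

/-- The conclusion from primality. -/
lemma prime_of_two (he : IsW F e) (hgen : ∀ x : A, ∃ k, x ∈ Fl F e k) {P : TwoSidedIdeal A}
    (hP : IsPrimeT P) {d N M : ℕ} {u : A}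
    (h : ∀ a b : G ι, eta0 F e d N a * u * eta0 F e d M b ∈ P)
    (hN : ∃ n : G ι, eta0 F e d N n ∉ P) (hM : ∃ n : G ι, eta0 F e d M n ∉ P) : u ∈ P := by
  have h1 : ∀ s ∈ Sp F e d N, ∀ t ∈ Sp F e d M, s * u * t ∈ P := by
    intro s hs
    unfold Sp at hs
    induction hs using Submodule.span_induction with
    | mem y hy =>
      obtain ⟨a, rfl⟩ := hy
      intro t ht
      unfold Sp at ht
      induction ht using Submodule.span_induction with
      | mem y hy =>
        obtain ⟨b, rfl⟩ := hy
        exact h a b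
      | zero => rw [mul_zero]; exact P.zero_mem
      | add y z _ _ hy hz => rw [mul_add]; exact P.add_mem hy hz
      | smul c y _ hy => rw [mul_smul_comm]; exact (subsp F P).smul_mem c hy
    | zero => intro t _; rw [zero_mul, zero_mul]; exact P.zero_mem
    | add y z _ _ hy hz => intro t ht; rw [add_mul, add_mul]; exact P.add_mem (hy t ht) (hz t ht)
    | smul c y _ hy =>
      intro t ht
      rw [smul_mul_assoc, smul_mul_assoc]
      exact (subsp F P).smul_mem c (hy t ht)
  have h2 : ∀ c, ∀ s ∈ Sp F e d N, ∀ t ∈ Sp F e d M, s * (c * (u * t)) ∈ P := fun c s hs t ht =>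
    left_closed hgen (fun v x hx => Sp_ad he d N v hx) (z := u * t)
      (fun s hs => by rw [← mul_assoc]; exact h1 s hs t ht) c s hs
  have h3 : ∀ c c', ∀ s ∈ Sp F e d N, ∀ t ∈ Sp F e d M, s * c * u * c' * t ∈ P :=
    fun c c' s hs t ht => right_closed hgen (fun v x hx => Sp_ad he d M v hx) (z := s * c * u)
      (fun t ht => by
        have := h2 c s hs t ht
        simpa only [mul_assoc] using this) c' t ht
  obtain ⟨n, hn⟩ := hN
  obtain ⟨m, hm⟩ := hM
  have h4 : ∀ c', u * c' * eta0 F e d M m ∈ P := by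
    intro c'
    refine (hP.elt fun c => ?_).resolve_left hn
    have := h3 c c' _ (eta0_mem_Sp d N n) _ (eta0_mem_Sp d M m)
    simpa only [mul_assoc] using this
  exact (hP.elt h4).resolve_right hm

end Pool.Agent.R693.W
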